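import Mathlib
import Pool.Agent.H13.Defs

set_option autoImplicit false

/-!
# CR-1: very general points

`exists_eval_ne`: countably many nonzero polynomials over `ℂ` in finitely many variables have a
common non-zero.  Proof: it is enough to treat `σ = Fin n` (rename by `Finite.equivFin`), by
induction on `n`; `n = 0`: polynomials are constants (`MvPolynomial.isEmptyRingEquiv` /
`eq_C_of_isEmpty`).  Step: `MvPolynomial.finSuccEquiv ℂ n (f k)` is a nonzero polynomial over
`MvPolynomial (Fin n) ℂ`; apply the induction hypothesis to the leading coefficients, giving `x`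
with `eval x (leadingCoeff) ≠ 0`; the univariate polynomials
`(finSuccEquiv ℂ n (f k)).map (eval x)` are nonzero, so the union of their root sets is countable
and `ℂ` is not countable (`Set.Countable`, `Cardinal.not_countable_complex` /
`Set.countable_iUnion`, `Set.Finite.countable`), so some `y` is not a root of any;
`MvPolynomial.eval_eq_eval_mv_eval'` gives `eval (Fin.cons y x) (f k) = eval y (...)`.
-/

namespace Pool.Agent.H92.CR

open Pool.Agent.H13 MvPolynomial

theorem vg_fin : ∀ (n : ℕ) (f : ℕ → MvPolynomial (Fin n) ℂ), (∀ k, f k ≠ 0) →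
    ∃ x : Fin n → ℂ, ∀ k, eval x (f k) ≠ 0 := by
  intro n
  induction n with
  | zero =>
    intro f hf
    refine ⟨fun _ => 0, fun k h0 => hf k ?_⟩
    rw [eq_C_of_isEmpty (f k), eval_C] at h0
    rw [eq_C_of_isEmpty (f k), h0, C_0]
  | succ n ih =>
    intro f hf
    have hne : ∀ k, (finSuccEquiv ℂ n (f k)).leadingCoeff ≠ 0 := by
      intro k
      rw [Ne, Polynomial.leadingCoeff_eq_zero, EmbeddingLike.map_eq_zero_iff]
      exact hf k
    obtain ⟨x, hx⟩ := ih (fun k => (finSuccEquiv ℂ n (f k)).leadingCoeff) hne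
    have hpoly : ∀ k, Polynomial.map (eval x) (finSuccEquiv ℂ n (f k)) ≠ 0 := by
      intro k h0
      apply hx k
      have h1 := congrArg (fun q => Polynomial.coeff q (finSuccEquiv ℂ n (f k)).natDegree) h0
      simp only [Polynomial.coeff_map, Polynomial.coeff_zero] at h1
      exact h1
    have hcount : (⋃ k, {y : ℂ | Polynomial.eval y
        (Polynomial.map (eval x) (finSuccEquiv ℂ n (f k))) = 0}).Countable := by
      refine Set.countable_iUnion fun k => ?_
      refine Set.Finite.countable ?_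
      refine Set.Finite.subset (Multiset.finite_toSet
        (Polynomial.map (eval x) (finSuccEquiv ℂ n (f k))).roots) ?_
      intro y hy
      exact (Polynomial.mem_roots (hpoly k)).2 hy
    obtain ⟨y, hy⟩ : ∃ y : ℂ, y ∉ ⋃ k, {y : ℂ | Polynomial.eval y
        (Polynomial.map (eval x) (finSuccEquiv ℂ n (f k))) = 0} := by
      by_contra h
      push Not at h
      apply not_countable_complex
      exact hcount.mono fun z _ => h z
    refine ⟨Fin.cons y x, fun k h0 => hy ?_⟩
    rw [eval_eq_eval_mv_eval'] at h0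
    exact Set.mem_iUnion.2 ⟨k, h0⟩

theorem exists_eval_ne {σ : Type} [Finite σ] (f : ℕ → MvPolynomial σ ℂ) (hf : ∀ k, f k ≠ 0) :
    ∃ x : σ → ℂ, ∀ k, eval x (f k) ≠ 0 := by
  obtain ⟨x, hx⟩ := vg_fin (Nat.card σ) (fun k => rename (Finite.equivFin σ) (f k)) (fun k => by
    rw [Ne, ← map_zero (rename (Finite.equivFin σ) : MvPolynomial σ ℂ →ₐ[ℂ] _),
      (rename_injective _ (Finite.equivFin σ).injective).eq_iff]
    exact hf k)
  refine ⟨x ∘ Finite.equivFin σ, fun k => ?_⟩
  have := hx k
  rwa [eval_rename] at this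

variable {n : ℕ}

theorem vg_exists {Q : (Fin n → Fin 2 → ℂ) → Prop} (h : VeryGeneral n Q) : ∃ p, Q p := by
  obtain ⟨f, hf, hQ⟩ := h
  obtain ⟨x, hx⟩ := exists_eval_ne f hf
  exact ⟨fun i j => x (i, j), hQ _ hx⟩

theorem vg_mono {Q Q' : (Fin n → Fin 2 → ℂ) → Prop} (h : VeryGeneral n Q)
    (hQ : ∀ p, Q p → Q' p) : VeryGeneral n Q' := by
  obtain ⟨f, hf, h1⟩ := h
  exact ⟨f, hf, fun p hp => hQ p (h1 p hp)⟩

theorem vg_of_ne (f : MvPolynomial (Fin n × Fin 2) ℂ) (hf : f ≠ 0) :
    VeryGeneral n (fun p => eval (fun q : Fin n × Fin 2 => p q.1 q.2) f ≠ 0) :=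
  ⟨fun _ => f, fun _ => hf, fun _ hp => hp 0⟩

theorem vg_iInter {Q : ℕ → (Fin n → Fin 2 → ℂ) → Prop} (h : ∀ j, VeryGeneral n (Q j)) :
    VeryGeneral n (fun p => ∀ j, Q j p) := by
  choose f hf hQ using h
  refine ⟨fun k => f (Nat.unpair k).1 (Nat.unpair k).2, fun k => hf _ _, fun p hp j => ?_⟩
  apply hQ j p
  intro l
  have := hp (Nat.pair j l)
  simpa only [Nat.unpair_pair] using this

/-- the same for a countable index type -/
theorem vg_countable {ι : Type*} [Countable ι] [Nonempty ι] {Q : ι → (Fin n → Fin 2 → ℂ) → Prop}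
    (h : ∀ j, VeryGeneral n (Q j)) : VeryGeneral n (fun p => ∀ j, Q j p) := by
  obtain ⟨e, he⟩ := exists_surjective_nat ι
  refine vg_mono (vg_iInter fun j => h (e j)) fun p hp j => ?_
  obtain ⟨i, rfl⟩ := he j
  exact hp i

theorem vg_and {Q Q' : (Fin n → Fin 2 → ℂ) → Prop} (h : VeryGeneral n Q)
    (h' : VeryGeneral n Q') : VeryGeneral n (fun p => Q p ∧ Q' p) := by
  have h2 : ∀ j : Bool, VeryGeneral n (fun p => if j = true then Q p else Q' p) := by
    intro j
    cases j
    · simpa using h'
    · simpa using h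
  refine vg_mono (vg_countable h2) fun p hp => ?_
  have h3 := hp true
  have h4 := hp false
  simp only [if_true] at h3
  simp only [Bool.false_eq_true, if_false] at h4
  exact ⟨h3, h4⟩

/-- permuting the points (rename the variables of the polynomials) -/
theorem vg_perm {Q : (Fin n → Fin 2 → ℂ) → Prop} (h : VeryGeneral n Q)
    (σ : Equiv.Perm (Fin n)) : VeryGeneral n (fun p => Q (fun i => p (σ i))) := by
  obtain ⟨f, hf, hQ⟩ := h
  have hinj : Function.Injective (fun q : Fin n × Fin 2 => (σ q.1, q.2)) := by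
    intro a b hab
    simp only [Prod.mk.injEq, EmbeddingLike.apply_eq_iff_eq] at hab
    exact Prod.ext hab.1 hab.2
  refine ⟨fun k => rename (fun q : Fin n × Fin 2 => (σ q.1, q.2)) (f k), fun k h0 => hf k ?_,
    fun p hp => hQ _ fun k => ?_⟩
  · rw [← map_zero (rename (fun q : Fin n × Fin 2 => (σ q.1, q.2)) :
      MvPolynomial (Fin n × Fin 2) ℂ →ₐ[ℂ] _)] at h0
    exact rename_injective _ hinj h0
  · have := hp k
    rw [eval_rename] at this
    exact this

end Pool.Agent.H92.CR
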