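import Mathlib
import Pool.Agent.H13.PosSub
import Pool.Agent.H13.ThmB
import Pool.Agent.H92.CR.VG

set_option autoImplicit false

/-!
# CR-2: nefness in terms of `HasCurve`

`hasCurve_mem`: see `class_mem_of_count` in `H13/PosSub.lean`: its proof uses the counting
hypothesis only to obtain `φ` (here given by `HasCurve`), the rest of the proof is literally
`hasCurve_mem` (`exists_homog`, `effective_mem`, then add multiples of the exceptional classes).

`nefAt_iff`: `→`: `BB_nonneg_closure y (curveClasses p)` and `curveClasses_sub` exactly as in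
`nefL` of `H92/RP/FinalA.lean`; `←`: `hasCurve_mem` and the exceptional classes (in
`curveClasses p`), `BB` unfolded.

`nefVG_of_point`: `transfer_all (le_refl n) P` (H13/Frozen.lean), again as in `nefL`.
`nefVG_perm`: `HasCurve (fun i => p (σ i)) d m ↔ HasCurve p d (fun i => m (σ.symm i))` and
`Equiv.sum_comp`.
-/

namespace Pool.Agent.H92.CR

open Pool.Agent.H13 MvPolynomial

/-- `y` is nef for the points `P` -/
def NefAt {k : Type*} [Field k] {n : ℕ} (P : Fin n → Fin 2 → k) (y : ℝ × (Fin n → ℝ)) : Prop :=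
  (∀ i, 0 ≤ y.2 i) ∧ ∀ (d : ℕ) (m : Fin n → ℕ), HasCurve P d m → ∑ i, y.2 i * m i ≤ y.1 * d

/-- all classes of `Y` are nef for very general points -/
def NefVG (n : ℕ) (Y : Set (ℝ × (Fin n → ℝ))) : Prop :=
  VeryGeneral n (fun p => ∀ y ∈ Y, NefAt p y)

variable {n : ℕ}

theorem hasCurve_mem (p : Fin n → Fin 2 → ℂ) (d : ℕ) (m : Fin n → ℕ) (h : HasCurve p d m) :
    (((d : ℕ) : ℝ), fun i => ((m i : ℕ) : ℝ)) ∈ moriCone p := by
  apply subset_closure
  set K := Submodule.span {c : ℝ // 0 ≤ c} (curveClasses p) with hK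
  obtain ⟨φ, hφ0, hφd, hφ⟩ := h
  obtain ⟨G, hGh, hG⟩ := exists_homog φ d hφd
  have hG0 : G ≠ 0 := by
    rintro rfl
    apply hφ0
    rw [← hG]; simp [dehom]
  have h1 := effective_mem p G hG0 d hGh
  rw [hG] at h1
  have hm : ∀ i, m i ≤ mult (p i) φ := fun i => (mem_Iord_iff_le_mult hφ0).1 (hφ i)
  have h3 : ∑ i : Fin n, (⟨((mult (p i) φ - m i : ℕ) : ℝ), Nat.cast_nonneg _⟩ : {c : ℝ // 0 ≤ c}) •
      ((0 : ℝ), (Pi.single i (-1 : ℝ) : Fin n → ℝ)) ∈ K :=
    K.sum_mem fun i _ => K.smul_mem _ (Submodule.subset_span (Or.inr ⟨i, rfl⟩))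
  have h4 := K.add_mem h1 h3
  change _ ∈ K
  convert h4 using 1
  have hs : ∀ (c : {c : ℝ // 0 ≤ c}) (v : ℝ × (Fin n → ℝ)), c • v = (c.1 • v) := fun c v => rfl
  simp only [hs]
  apply Prod.ext
  · simp only [Prod.fst_add, Prod.fst_sum, Prod.smul_fst, smul_eq_mul, mul_zero,
      Finset.sum_const_zero, add_zero]
  · funext j
    simp only [Prod.snd_add, Prod.smul_snd, Prod.snd_sum, Pi.add_apply,
      Finset.sum_apply, Pi.smul_apply, smul_eq_mul, Pi.single_apply]
    rw [Finset.sum_eq_single j]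
    · rw [if_pos rfl, Nat.cast_sub (hm j)]
      ring
    · intro b _ hb
      rw [if_neg (Ne.symm hb)]; ring
    · intro h; exact absurd (Finset.mem_univ j) h

theorem nefAt_BB_single (y : ℝ × (Fin n → ℝ)) (i : Fin n) :
    BB y ((0 : ℝ), (Pi.single i (-1 : ℝ) : Fin n → ℝ)) = y.2 i := by
  simp only [BB, Pi.single_apply, mul_ite, mul_neg, mul_one, mul_zero,
    Finset.sum_ite_eq', Finset.mem_univ, if_true]
  ring

theorem nefAt_iff (p : Fin n → Fin 2 → ℂ) (y : ℝ × (Fin n → ℝ)) :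
    NefAt p y ↔ ∀ v ∈ moriCone p, 0 ≤ BB y v := by
  constructor
  · rintro ⟨h0, h1⟩ v hv
    refine BB_nonneg_closure _ (curveClasses p) ?_ v hv
    intro w hw
    rcases curveClasses_sub p hw with ⟨d, m, hc, rfl⟩ | ⟨i, rfl⟩
    · have h3 := h1 d m hc
      simp only [BB]
      linarith
    · rw [nefAt_BB_single]
      exact h0 i
  · intro h
    refine ⟨fun i => ?_, fun d m hc => ?_⟩
    · have h1 := h ((0 : ℝ), (Pi.single i (-1 : ℝ) : Fin n → ℝ))
        (subset_closure (Submodule.subset_span (Or.inr ⟨i, rfl⟩)))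
      rwa [nefAt_BB_single] at h1
    · have h1 := h _ (hasCurve_mem p d m hc)
      simp only [BB] at h1
      linarith

theorem nefVG_of_point {K : Type*} [Field K] (P : Fin n → Fin 2 → K)
    (Y : Set (ℝ × (Fin n → ℝ))) (h : ∀ y ∈ Y, NefAt P y) : NefVG n Y := by
  refine vg_mono (transfer_all (le_refl n) P) fun p hp y hy => ?_
  exact ⟨(h y hy).1, fun d m hc => (h y hy).2 d m (hp d m (by simpa using hc))⟩

theorem nefVG_mono {Y Y' : Set (ℝ × (Fin n → ℝ))} (h : NefVG n Y) (hY : Y' ⊆ Y) :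
    NefVG n Y' :=
  vg_mono h fun _ hp y hy => hp y (hY hy)

theorem nefVG_iUnion {ι : Type*} [Countable ι] {Y : ι → Set (ℝ × (Fin n → ℝ))}
    (h : ∀ j, NefVG n (Y j)) : NefVG n (⋃ j, Y j) := by
  rcases isEmpty_or_nonempty ι with hι | hι
  · refine ⟨fun _ => 1, fun _ => one_ne_zero, fun p _ y hy => ?_⟩
    rw [Set.iUnion_of_empty] at hy
    exact absurd hy (Set.notMem_empty y)
  · refine vg_mono (vg_countable h) fun p hp y hy => ?_
    obtain ⟨j, hj⟩ := Set.mem_iUnion.1 hy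
    exact hp j y hj

theorem nefAt_perm {k : Type*} [Field k] (p : Fin n → Fin 2 → k) (σ : Equiv.Perm (Fin n))
    (y : ℝ × (Fin n → ℝ)) (h : NefAt (fun i => p (σ i)) (y.1, fun i => y.2 (σ i))) :
    NefAt p y := by
  obtain ⟨h0, h1⟩ := h
  refine ⟨fun i => ?_, fun d m hc => ?_⟩
  · have := h0 (σ.symm i)
    simpa using this
  · obtain ⟨F, hF0, hFd, hF⟩ := hc
    have h2 := h1 d (fun i => m (σ i)) ⟨F, hF0, hFd, fun i => hF (σ i)⟩
    simp only at h2
    rwa [Equiv.sum_comp σ (fun i => y.2 i * (m i : ℝ))] at h2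

theorem nefVG_perm {Y : Set (ℝ × (Fin n → ℝ))} (h : NefVG n Y) (σ : Equiv.Perm (Fin n)) :
    NefVG n {y | (y.1, fun i => y.2 (σ i)) ∈ Y} := by
  refine vg_mono (vg_perm h σ) fun p hp y hy => ?_
  exact nefAt_perm p σ y (hp _ hy)

end Pool.Agent.H92.CR
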