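import Mathlib
import Pool.Agent.H92.CR.NefAt

set_option autoImplicit false

/-!
# CR-3a: curves through points of the projective plane

The multiplicity of the curve `G = 0` at the projective point with (nonzero) coordinate vector
`v : Fin 3 → k` is at least `m` iff `G ∈ mI v ^ m`, where `mI v` is the maximal ideal of the point
`v` of the affine 3-space (the cone over the curve has the same multiplicity).

* `mem_of_mul_mem`: with `c = eval v u ≠ 0` one has `C c - u ∈ mI v`, so
  `(C c - u) ^ m ∈ mI v ^ m` and `(C c - u) ^ m = C c ^ m - u * w` for some `w`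
  (`sub_dvd_pow_sub_pow` for `C c - (C c - u) = u`, or work in the quotient by `mI v ^ m`: `u` is
  a unit there because `C c - u` is nilpotent, `IsNilpotent.isUnit_...`), hence
  `C c ^ m * G ∈ mI v ^ m`; divide by `c ^ m`.
* `aeval_mem`: `(aeval s)` maps `mI v` into `mI w` (`eval w (aeval s G) = eval v G`), so
  `Ideal.map` of the power is in the power (`Ideal.map_pow`, `Ideal.pow_right_mono`,
  `Ideal.mem_map_of_mem`).
* `pcurve_linear`: `G ↦ aeval (fun i => ∑ j, C (g i j) * X j) G` maps `mI (g v)` into `mI v`, it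
  is injective (inverse substitution `g⁻¹`) and preserves homogeneity
  (`IsHomogeneous.aeval`/`IsHomogeneous.eval₂`).
* `pcurve_smul`: for each `i` the substitution `X ↦ c i * X` maps `G` to `c i ^ d * G`
  (homogeneity) and `mI (c i • v i)` into `mI (v i)`.
* `nefP_linear`, `nefP_smul` are immediate from these.

Status: complete (helper26).
-/

namespace Pool.Agent.H92.CR

open Pool.Agent.H13 MvPolynomial

variable {k : Type*} [Field k] {n : ℕ}

/-- maximal ideal of a point of affine 3-space -/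
noncomputable def mI (v : Fin 3 → k) : Ideal (MvPolynomial (Fin 3) k) :=
  RingHom.ker (eval v : MvPolynomial (Fin 3) k →+* k)

/-- there is a nonzero form of degree `d` with multiplicity at least `m i` at the projective
point `v i` -/
def PCurve (v : Fin n → Fin 3 → k) (d : ℕ) (m : Fin n → ℕ) : Prop :=
  ∃ G : MvPolynomial (Fin 3) k, G ≠ 0 ∧ G.IsHomogeneous d ∧ ∀ i, G ∈ mI (v i) ^ (m i)

theorem mem_mI {v : Fin 3 → k} {G : MvPolynomial (Fin 3) k} : G ∈ mI v ↔ eval v G = 0 :=
  RingHom.mem_ker

theorem mem_of_mul_mem {v : Fin 3 → k} {u G : MvPolynomial (Fin 3) k} {m : ℕ}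
    (hu : eval v u ≠ 0) (h : u * G ∈ mI v ^ m) : G ∈ mI v ^ m := by
  set c := eval v u with hc
  have h1 : C c - u ∈ mI v := by
    rw [mem_mI, map_sub, eval_C, ← hc, sub_self]
  have h2 : (C c - u) ^ m ∈ mI v ^ m := Ideal.pow_mem_pow h1 m
  obtain ⟨q, hq⟩ := sub_dvd_pow_sub_pow (C c : MvPolynomial (Fin 3) k) (C c - u) m
  rw [sub_sub_cancel] at hq
  have h3 : (C c : MvPolynomial (Fin 3) k) ^ m * G = (C c - u) ^ m * G + q * (u * G) := by
    linear_combination G * hq
  have h4 : (C c : MvPolynomial (Fin 3) k) ^ m * G ∈ mI v ^ m := by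
    rw [h3]
    exact add_mem (Ideal.mul_mem_right _ _ h2) (Ideal.mul_mem_left _ _ h)
  have h5 : G = C (c ^ m)⁻¹ * ((C c : MvPolynomial (Fin 3) k) ^ m * G) := by
    rw [← C_pow, ← mul_assoc, ← C_mul, inv_mul_cancel₀ (pow_ne_zero _ hu), C_1, one_mul]
  rw [h5]
  exact Ideal.mul_mem_left _ _ h4

/-- substitutions -/
theorem aeval_mem {v w : Fin 3 → k} (s : Fin 3 → MvPolynomial (Fin 3) k)
    (hs : ∀ j, eval w (s j) = v j) {G : MvPolynomial (Fin 3) k} {m : ℕ} (h : G ∈ mI v ^ m) :
    aeval s G ∈ mI w ^ m := by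
  have h1 : ∀ F : MvPolynomial (Fin 3) k, eval w (aeval s F) = eval v F := by
    intro F
    have : (eval w).comp ((aeval s : MvPolynomial (Fin 3) k →ₐ[k] MvPolynomial (Fin 3) k) :
        MvPolynomial (Fin 3) k →+* MvPolynomial (Fin 3) k) = eval v := by
      apply MvPolynomial.ringHom_ext
      · intro a
        simp [algHom_C, algebraMap_eq]
      · intro i
        simp [hs]
    exact congrArg (fun f : MvPolynomial (Fin 3) k →+* k => f F) this
  have h2 : Ideal.map (aeval s : MvPolynomial (Fin 3) k →ₐ[k] MvPolynomial (Fin 3) k) (mI v) ≤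
      mI w := by
    rw [Ideal.map_le_iff_le_comap]
    intro F hF
    rw [Ideal.mem_comap, mem_mI, h1]
    exact mem_mI.mp hF
  have h3 := Ideal.mem_map_of_mem
    (aeval s : MvPolynomial (Fin 3) k →ₐ[k] MvPolynomial (Fin 3) k) h
  rw [Ideal.map_pow] at h3
  exact Ideal.pow_right_mono h2 m h3

/-- linear change of coordinates -/
theorem pcurve_linear (g : Matrix (Fin 3) (Fin 3) k) (hg : IsUnit g.det) (v : Fin n → Fin 3 → k)
    (d : ℕ) (m : Fin n → ℕ) (h : PCurve (fun i => g.mulVec (v i)) d m) : PCurve v d m := by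
  obtain ⟨G, h0, hd, hm⟩ := h
  refine ⟨aeval (fun i => ∑ j, C (g i j) * X j) G, ?_, ?_, ?_⟩
  · intro hz
    apply h0
    have hcomp : (aeval (fun i => ∑ j, C (g⁻¹ i j) * X j) :
        MvPolynomial (Fin 3) k →ₐ[k] MvPolynomial (Fin 3) k).comp
        (aeval (fun i => ∑ j, C (g i j) * X j)) = AlgHom.id k _ := by
      apply MvPolynomial.algHom_ext
      intro i
      rw [AlgHom.comp_apply, aeval_X, map_sum, AlgHom.id_apply]
      have hmul := Matrix.mul_nonsing_inv g hg
      calc ∑ j, aeval (fun i => ∑ j, C (g⁻¹ i j) * X j) (C (g i j) * X j)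
          = ∑ j, ∑ l, (C (g i j) * C (g⁻¹ j l)) * (X l : MvPolynomial (Fin 3) k) := by
            refine Finset.sum_congr rfl fun j _ => ?_
            rw [map_mul, aeval_X, algHom_C, algebraMap_eq, Finset.mul_sum]
            refine Finset.sum_congr rfl fun l _ => ?_
            rw [mul_assoc]
        _ = ∑ l, C ((g * g⁻¹) i l) * (X l : MvPolynomial (Fin 3) k) := by
            rw [Finset.sum_comm]
            refine Finset.sum_congr rfl fun l _ => ?_
            rw [← Finset.sum_mul, Matrix.mul_apply, map_sum]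
            congr 1
            refine Finset.sum_congr rfl fun j _ => ?_
            rw [C_mul]
        _ = X i := by
            rw [hmul, Finset.sum_eq_single i]
            · rw [Matrix.one_apply_eq, C_1, one_mul]
            · intro l _ hl
              rw [Matrix.one_apply_ne (Ne.symm hl), C_0, zero_mul]
            · intro h
              exact absurd (Finset.mem_univ i) h
    have h1 := congrArg (fun f : MvPolynomial (Fin 3) k →ₐ[k] MvPolynomial (Fin 3) k => f G) hcomp
    simp only [AlgHom.comp_apply, AlgHom.id_apply] at h1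
    rw [← h1, hz, map_zero]
  · have h1 := hd.aeval (fun i => ∑ j, C (g i j) * X j) (n := 1)
      (fun i => IsHomogeneous.sum _ _ _ fun j _ => isHomogeneous_C_mul_X _ _)
    rwa [one_mul] at h1
  · intro i
    refine aeval_mem _ ?_ (hm i)
    intro a
    simp [Matrix.mulVec, dotProduct]

theorem aeval_scale (a : k) {G : MvPolynomial (Fin 3) k} {d : ℕ} (h : G.IsHomogeneous d) :
    aeval (fun j : Fin 3 => C a * X j) G = C (a ^ d) * G := by
  conv_lhs => rw [G.as_sum]
  conv_rhs => rw [G.as_sum]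
  rw [map_sum, Finset.mul_sum]
  refine Finset.sum_congr rfl fun s hs => ?_
  have hd : s.degree = d := by
    by_contra hne
    exact (mem_support_iff.mp hs) (h.coeff_eq_zero hne)
  rw [aeval_monomial, monomial_eq, Finsupp.prod_fintype _ _ (fun i => pow_zero _),
    Finsupp.prod_fintype _ _ (fun i => pow_zero _), algebraMap_eq]
  simp only [mul_pow]
  rw [Finset.prod_mul_distrib, Finset.prod_pow_eq_pow_sum, ← Finsupp.degree_eq_sum, hd, C_pow]
  ring

/-- rescaling of the coordinate vectors -/
theorem pcurve_smul (c : Fin n → k) (hc : ∀ i, c i ≠ 0) (v : Fin n → Fin 3 → k)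
    (d : ℕ) (m : Fin n → ℕ) (h : PCurve (fun i => c i • v i) d m) : PCurve v d m := by
  obtain ⟨G, h0, hd, hm⟩ := h
  refine ⟨G, h0, hd, fun i => ?_⟩
  have h1 := aeval_mem (w := v i) (fun j : Fin 3 => C (c i) * X j) (by intro j; simp) (hm i)
  rw [aeval_scale (c i) hd] at h1
  refine mem_of_mul_mem ?_ h1
  rw [eval_C]
  exact pow_ne_zero _ (hc i)

/-- nefness for projective points -/
def NefP (v : Fin n → Fin 3 → k) (y : ℝ × (Fin n → ℝ)) : Prop :=
  (∀ i, 0 ≤ y.2 i) ∧ ∀ (d : ℕ) (m : Fin n → ℕ), PCurve v d m → ∑ i, y.2 i * m i ≤ y.1 * d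

theorem nefP_linear (g : Matrix (Fin 3) (Fin 3) k) (hg : IsUnit g.det) (v : Fin n → Fin 3 → k)
    (y : ℝ × (Fin n → ℝ)) (h : NefP v y) : NefP (fun i => g.mulVec (v i)) y :=
  ⟨h.1, fun d m hc => h.2 d m (pcurve_linear g hg v d m hc)⟩

theorem nefP_smul (c : Fin n → k) (hc : ∀ i, c i ≠ 0) (v : Fin n → Fin 3 → k)
    (y : ℝ × (Fin n → ℝ)) (h : NefP v y) : NefP (fun i => c i • v i) y :=
  ⟨h.1, fun d m hcu => h.2 d m (pcurve_smul c hc v d m hcu)⟩

end Pool.Agent.H92.CR
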