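import Mathlib
import Pool.Agent.H13.Frozen
import Pool.Agent.H13.PosSub
import Pool.Agent.H92.CR.Proj

set_option autoImplicit false

/-!
# CR-3b: projective and affine curves

`pcurve_affine`, `→` : `G ∈ mI (P,1) ^ m`; the composite of algebra maps
`tr P ∘ aeval ![X 0, X 1, 1]` sends `X 0 ↦ X 0 + C (P 0)`, `X 1 ↦ X 1 + C (P 1)`, `X 2 ↦ 1`, so it
maps `mI (P, 1)` into `idealOfVars (Fin 2) k` (constant coefficient = value of `G` at `(P, 1)`:
`constantCoeff_tr`), hence `mI (P,1) ^ m` into `idealOfVars (Fin 2) k ^ m`; so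
`aeval ![X 0, X 1, 1] G ∈ Iord P m` (`mem_Iord`).  The dehomogenisation of a nonzero homogeneous
polynomial is nonzero and its degree is at most `d` (`dehom_ne_zero`, `totalDegree_dehom` in
`H13/Frozen.lean` are over `ℂ` but the proofs are general, copy them).

`←` : given `F` with `totalDegree F ≤ d`, take its homogenisation
`G = ∑ s ∈ F.support, monomial (s 0, s 1, d - s 0 - s 1) (coeff s F)` (`exists_homog` in
`H13/PosSub.lean` is over `ℂ`, the proof is general); `aeval ![X 0, X 1, 1] G = F`.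
Let `v = (P, 1)`.  `X 2 ∉ mI v`, so there is `w` with `1 - w * X 2 ∈ mI v ^ m`
(e.g. `w = ∑_{j<m} (1 - X 2) ^ j`, `1 - (1 - (1 - X 2)) * w = (1 - X 2) ^ m`:
`mul_neg_geom_sum`/`geom_sum_mul_neg`).  `w ^ d * G = aeval (fun j => w * X j) G` (homogeneity)
is congruent modulo `mI v ^ m` to `aeval ![w * X 0, w * X 1, 1] G =
aeval ![w * X 0, w * X 1] F` (congruent arguments give congruent values: pass to the quotient
ring, `Ideal.Quotient.mk`), and `w * X 0 - C (P 0)`, `w * X 1 - C (P 1)` are in `mI v` (when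
`m ≥ 1`; `m = 0` is trivial), `F ∈ Iord P m` means `F = aeval (X j - C (P j)) F'` with
`F' = tr P F ∈ idealOfVars ^ m`, so `aeval ![w X0, w X1] F = aeval (w X j - C (P j)) F'` lies in
`mI v ^ m` (`Ideal.map` of the power of `idealOfVars`).  So `w ^ d * G ∈ mI v ^ m`, and
`eval v w = 1` (for `m ≥ 1`) so `mem_of_mul_mem` gives `G ∈ mI v ^ m`.
-/

namespace Pool.Agent.H92.CR

open Pool.Agent.H13 MvPolynomial

variable {k : Type*} [Field k] {n : ℕ}

/-- a ring map sending `I` into `J` sends `I ^ m` into `J ^ m` -/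
theorem aff_pow {A B : Type*} [CommRing A] [CommRing B] (φ : A →+* B) {I : Ideal A} {J : Ideal B}
    (h : ∀ x ∈ I, φ x ∈ J) {m : ℕ} {x : A} (hx : x ∈ I ^ m) : φ x ∈ J ^ m := by
  have h1 : Ideal.map φ I ≤ J := Ideal.map_le_iff_le_comap.2 h
  have h2 : φ x ∈ Ideal.map φ (I ^ m) := Ideal.mem_map_of_mem φ hx
  rw [Ideal.map_pow] at h2
  exact Ideal.pow_right_mono h1 m h2

/-- Dehomogenisation. -/
noncomputable def affD : MvPolynomial (Fin 3) k →ₐ[k] MvPolynomial (Fin 2) k :=
  aeval ![(X 0 : MvPolynomial (Fin 2) k), X 1, 1]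

theorem affD_monomial (s : Fin 3 →₀ ℕ) (c : k) :
    affD (monomial s c) = monomial (expo (s 0, s 1)) c := by
  rw [affD, aeval_monomial, monomial_eq]
  rw [Finsupp.prod_fintype _ _ (by intro; simp), Finsupp.prod_fintype _ _ (by intro; simp),
    Fin.prod_univ_three, Fin.prod_univ_two]
  simp

theorem affD_eq_sum (F : MvPolynomial (Fin 3) k) :
    affD F = ∑ s ∈ F.support, monomial (expo (s 0, s 1)) (coeff s F) := by
  conv_lhs => rw [F.as_sum]
  rw [map_sum]
  exact Finset.sum_congr rfl fun s _ => affD_monomial s _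

theorem affD_totalDegree {F : MvPolynomial (Fin 3) k} {d : ℕ} (hF : F.IsHomogeneous d) :
    (affD F).totalDegree ≤ d := by
  rw [affD_eq_sum]
  refine (totalDegree_finsetSum _ _).trans ?_
  rw [Finset.sup_le_iff]
  intro s hs
  refine (totalDegree_monomial_le _ _).trans ?_
  have h1 : s.degree = d := (hF.degree_eq_sum_deg_support hs).symm
  change (expo (s 0, s 1)).degree ≤ d
  rw [expo_degree, ← h1, Finsupp.degree_eq_sum, Fin.sum_univ_three]
  simp

theorem affD_ne_zero {F : MvPolynomial (Fin 3) k} {d : ℕ} (hF : F.IsHomogeneous d)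
    (h0 : F ≠ 0) : affD F ≠ 0 := by
  classical
  obtain ⟨t, ht⟩ := support_nonempty.2 h0
  intro hz
  have h1 := congrArg (coeff (expo (t 0, t 1))) hz
  rw [affD_eq_sum, coeff_sum, Finset.sum_eq_single t] at h1
  · rw [coeff_monomial, if_pos rfl, coeff_zero] at h1
    exact (MvPolynomial.mem_support_iff.1 ht) h1
  · intro s hs hst
    rw [coeff_monomial, if_neg]
    intro he
    apply hst
    have he' := expo_inj he
    have e0 : s 0 = t 0 := congrArg Prod.fst he'
    have e1 : s 1 = t 1 := congrArg Prod.snd he'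
    have d1 : s.degree = d := (hF.degree_eq_sum_deg_support hs).symm
    have d2 : t.degree = d := (hF.degree_eq_sum_deg_support ht).symm
    rw [Finsupp.degree_eq_sum, Fin.sum_univ_three] at d1 d2
    ext i
    fin_cases i
    · exact e0
    · exact e1
    · simp; omega
  · intro h; exact absurd ht h

/-- Homogenisation. -/
theorem aff_homog (φ : MvPolynomial (Fin 2) k) (d : ℕ) (hd : φ.totalDegree ≤ d) :
    ∃ G : MvPolynomial (Fin 3) k, G.IsHomogeneous d ∧ affD G = φ := by
  classical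
  let τ : (Fin 2 →₀ ℕ) → (Fin 3 →₀ ℕ) := fun s =>
    Finsupp.single 0 (s 0) + Finsupp.single 1 (s 1) + Finsupp.single 2 (d - s 0 - s 1)
  refine ⟨∑ s ∈ φ.support, monomial (τ s) (coeff s φ), ?_, ?_⟩
  · apply IsHomogeneous.sum
    intro s hs
    apply isHomogeneous_monomial
    have h1 := (le_totalDegree hs).trans hd
    change s.degree ≤ d at h1
    rw [Finsupp.degree_eq_sum, Fin.sum_univ_two] at h1
    rw [Finsupp.degree_eq_sum, Fin.sum_univ_three]
    simp [τ]
    omega
  · have h1 : ∀ s, affD (monomial (τ s) (coeff s φ)) = monomial s (coeff s φ) := by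
      intro s
      rw [affD_monomial]
      congr 1
      have : ((τ s) 0, (τ s) 1) = (s 0, s 1) := by
        simp [τ]
      rw [this, expo_surj]
    have h2 : affD (∑ s ∈ φ.support, monomial (τ s) (coeff s φ)) =
        ∑ s ∈ φ.support, affD (monomial (τ s) (coeff s φ)) := map_sum _ _ _
    rw [h2, Finset.sum_congr rfl fun s _ => h1 s, ← φ.as_sum]

theorem affD_eval (P : Fin 2 → k) (F : MvPolynomial (Fin 3) k) :
    eval P (affD F) = eval ![P 0, P 1, 1] F := by
  have h : ((eval P : MvPolynomial (Fin 2) k →+* k).comp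
      (affD : MvPolynomial (Fin 3) k →ₐ[k] MvPolynomial (Fin 2) k).toRingHom) =
      (eval ![P 0, P 1, 1] : MvPolynomial (Fin 3) k →+* k) := by
    apply MvPolynomial.ringHom_ext
    · intro r
      simp [affD]
    · intro j
      fin_cases j <;> simp [affD]
  exact DFunLike.congr_fun h F

/-- dehomogenisation keeps multiplicities -/
theorem affD_mem {P : Fin 2 → k} {m : ℕ} {G : MvPolynomial (Fin 3) k}
    (h : G ∈ mI ![P 0, P 1, 1] ^ m) : affD G ∈ Iord P m := by
  rw [mem_Iord]
  refine aff_pow (((tr P).comp affD).toRingHom : MvPolynomial (Fin 3) k →+* MvPolynomial (Fin 2) k)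
    ?_ h
  intro x hx
  rw [mem_mI, ← affD_eval, ← mem_Iord_one, mem_Iord, pow_one] at hx
  exact hx

/-- scaling a homogeneous polynomial -/
theorem aff_scale {G : MvPolynomial (Fin 3) k} {d : ℕ} (hG : G.IsHomogeneous d)
    (w : MvPolynomial (Fin 3) k) : aeval (fun j => w * X j) G = w ^ d * G := by
  conv_lhs => rw [G.as_sum]
  conv_rhs => rw [G.as_sum]
  rw [map_sum, Finset.mul_sum]
  refine Finset.sum_congr rfl fun s hs => ?_
  have h1 : s.degree = d := (hG.degree_eq_sum_deg_support hs).symm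
  rw [aeval_monomial, monomial_eq, Finsupp.prod_fintype _ _ (by intro; simp),
    Finsupp.prod_fintype _ _ (by intro; simp), Fin.prod_univ_three, Fin.prod_univ_three, ← h1,
    Finsupp.degree_eq_sum, Fin.sum_univ_three, algebraMap_eq]
  ring

/-- congruent substitutions -/
theorem aff_congr (I : Ideal (MvPolynomial (Fin 3) k)) {f g : Fin 3 → MvPolynomial (Fin 3) k}
    (h : ∀ j, f j - g j ∈ I) (G : MvPolynomial (Fin 3) k) : aeval f G - aeval g G ∈ I := by
  rw [← Ideal.Quotient.mk_eq_mk_iff_sub_mem]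
  have h1 : ((Ideal.Quotient.mkₐ k I).comp (aeval f)) = ((Ideal.Quotient.mkₐ k I).comp (aeval g)) := by
    apply MvPolynomial.algHom_ext
    intro j
    rw [AlgHom.comp_apply, AlgHom.comp_apply, aeval_X, aeval_X]
    exact (Ideal.Quotient.mk_eq_mk_iff_sub_mem _ _).2 (h j)
  exact DFunLike.congr_fun h1 G

/-- homogenisation keeps multiplicities -/
theorem aff_mem {P : Fin 2 → k} {m d : ℕ} {G : MvPolynomial (Fin 3) k} (hG : G.IsHomogeneous d)
    (h : affD G ∈ Iord P m) : G ∈ mI ![P 0, P 1, 1] ^ m := by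
  rcases Nat.eq_zero_or_pos m with hm | hm
  · subst hm
    simp
  obtain ⟨m', rfl⟩ : ∃ m', m = m' + 1 := ⟨m - 1, by omega⟩
  set v : Fin 3 → k := ![P 0, P 1, 1] with hv
  set w : MvPolynomial (Fin 3) k := ∑ j ∈ Finset.range (m' + 1), (1 - X 2) ^ j with hw
  have hwv : eval v w = 1 := by
    rw [hw, map_sum, Finset.sum_range_succ']
    simp [hv]
  have hX2 : (1 - X 2 : MvPolynomial (Fin 3) k) ∈ mI v := by
    rw [mem_mI]
    simp [hv]
  have hgeom : w * X 2 = 1 - (1 - X 2) ^ (m' + 1) := by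
    have := mul_neg_geom_sum (1 - X 2 : MvPolynomial (Fin 3) k) (m' + 1)
    rw [← this, ← hw]
    ring
  have e1 := aff_congr (mI v ^ (m' + 1)) (f := fun j => w * X j) (g := ![w * X 0, w * X 1, 1]) (by
    intro j
    fin_cases j
    · simp
    · simp
    · simp only [Fin.reduceFinMk, Matrix.cons_val]
      rw [hgeom]
      have := Ideal.pow_mem_pow hX2 (m' + 1)
      have h2 := neg_mem this
      convert h2 using 1
      ring) G
  rw [aff_scale hG] at e1
  have e2 : aeval ![w * X 0, w * X 1, 1] G = aeval ![w * X 0, w * X 1] (affD G) := by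
    have : (aeval ![w * X 0, w * X 1, 1] : MvPolynomial (Fin 3) k →ₐ[k] MvPolynomial (Fin 3) k) =
        (aeval ![w * X 0, w * X 1]).comp affD := by
      apply MvPolynomial.algHom_ext
      intro j
      fin_cases j <;> simp [affD]
    exact DFunLike.congr_fun this G
  have e3 : aeval ![w * X 0, w * X 1] (affD G) =
      aeval ![w * X 0 - C (P 0), w * X 1 - C (P 1)] (tr P (affD G)) := by
    have : (aeval ![w * X 0, w * X 1] : MvPolynomial (Fin 2) k →ₐ[k] MvPolynomial (Fin 3) k) =
        (aeval ![w * X 0 - C (P 0), w * X 1 - C (P 1)]).comp (tr P) := by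
      apply MvPolynomial.algHom_ext
      intro j
      fin_cases j <;> simp [algebraMap_eq]
    exact DFunLike.congr_fun this (affD G)
  have e4 : aeval ![w * X 0 - C (P 0), w * X 1 - C (P 1)] (tr P (affD G)) ∈ mI v ^ (m' + 1) := by
    rw [mem_Iord] at h
    refine aff_pow ((aeval ![w * X 0 - C (P 0), w * X 1 - C (P 1)] :
      MvPolynomial (Fin 2) k →ₐ[k] MvPolynomial (Fin 3) k).toRingHom) ?_ h
    intro x hx
    have h1 : idealOfVars (Fin 2) k ≤ Ideal.comap ((aeval ![w * X 0 - C (P 0), w * X 1 - C (P 1)] :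
      MvPolynomial (Fin 2) k →ₐ[k] MvPolynomial (Fin 3) k).toRingHom) (mI v) := by
      refine Ideal.span_le.2 ?_
      rintro _ ⟨j, rfl⟩
      rw [SetLike.mem_coe, Ideal.mem_comap, mem_mI]
      have hv0 : v 0 = P 0 := rfl
      have hv1 : v 1 = P 1 := rfl
      fin_cases j
      · simp [hwv, hv0]
      · simp [hwv, hv1]
    exact h1 hx
  rw [e2, e3] at e1
  have e5 := Ideal.add_mem _ e1 e4
  rw [sub_add_cancel] at e5
  refine mem_of_mul_mem ?_ e5
  rw [map_pow, hwv, one_pow]
  exact one_ne_zero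

theorem pcurve_affine (P : Fin n → Fin 2 → k) (d : ℕ) (m : Fin n → ℕ) :
    PCurve (fun i => ![P i 0, P i 1, 1]) d m ↔ HasCurve P d m := by
  constructor
  · rintro ⟨G, h0, hG, hm⟩
    exact ⟨affD G, affD_ne_zero hG h0, affD_totalDegree hG, fun i => affD_mem (hm i)⟩
  · rintro ⟨F, h0, hF, hm⟩
    obtain ⟨G, hG, rfl⟩ := aff_homog F d hF
    refine ⟨G, ?_, hG, fun i => aff_mem hG (hm i)⟩
    rintro rfl
    exact h0 (map_zero _)

theorem nefP_affine (P : Fin n → Fin 2 → k) (y : ℝ × (Fin n → ℝ)) :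
    NefP (fun i => ![P i 0, P i 1, 1]) y ↔ NefAt P y := by
  simp only [NefP, NefAt, pcurve_affine]

end Pool.Agent.H92.CR
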