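import Mathlib

set_option autoImplicit false

/-!
# CR-6a: arithmetic of the odd classes

`line_lt`: suppose `s = B 0 + B 1 - A ≥ 0`; all `B i ≤ A` (`B i ^ 2 ≤ A ^ 2 + 1 - 9`) so `s ≤ A`
(`A - s = 2A - B0 - B1 ≥ 0`); by Cauchy-Schwarz with the weights `(2,2,1,1,1,1,1,1,1,1)`
`(2 (B0 - s) + 2 (B1 - s) + B2 + ... + B9)^2 ≤ 16 ((B0 - s)^2 + (B1 - s)^2 + B2^2 + ... + B9^2)
= 16 ((A - s)^2 - (s^2 - 1))` (use `A^2 + 1 = ∑ B^2` and `B0 + B1 = A + s`), and the left side is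
`(B0 + B1 - 4s + 3A + 1)^2 = (4 (A - s) + s + 1)^2 > 16 (A - s)^2`, so
`16 (s^2 - 1) < 0`, i.e. `s = 0`; but `s` is odd (sum of two odd numbers minus an odd number).

`case_two`: `b i ≤ b 2` for `i ≥ 2`, so `∑_{i ≥ 2} b i ^ 2 ≤ b2 (3a - b0 - b1)`; with
`u = b0 + b1`: `b0^2 + b1^2 ≤ (u - b2)^2 + b2^2` (as `(b0 - b2)(b1 - b2) ≥ 0`); the sum
`f(u) = (u - b2)^2 + b2^2 + b2 (3a - u)` is increasing for `2u ≥ 3 b2` and `u ≤ a - b2`, so
`a^2 ≤ f(u) ≤ f(a - b2) = a^2 - 2 b2 (a - 3 b2) ≤ a^2`.  So all are equalities: if `b2 = 0` then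
`b i = 0` for `i ≥ 2`, `3a = b0 + b1 ≤ a`, so `a = 0` and all `b = 0` (`c = 0`); otherwise
`a = 3 b2`, `u = 2 b2` so `b0 = b1 = b2 =: c`, and `b i (c - b i) = 0` for `i ≥ 2`,
`∑ b i = 9c` so exactly one `b i` is `0`, it is `b 9` because `b` is antitone.
-/

namespace Pool.Agent.H92.CR

theorem lat_sum10 (F : Fin 10 → ℤ) :
    ∑ i, F i = F 0 + F 1 + F 2 + F 3 + F 4 + F 5 + F 6 + F 7 + F 8 + F 9 := by
  simp only [Fin.sum_univ_castSucc, Finset.univ_eq_empty, Finset.sum_empty, zero_add]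
  rfl

theorem line_lt (A : ℤ) (B : Fin 10 → ℤ) (hA : Odd A) (hB : ∀ i, Odd (B i))
    (hB0 : ∀ i, 0 < B i) (hA0 : 0 < A)
    (h1 : A ^ 2 + 1 = ∑ i, B i ^ 2) (h2 : ∑ i, B i = 3 * A + 1) :
    B 0 + B 1 < A := by
  by_contra hcon
  rw [not_lt] at hcon
  have hle : ∀ i, B i ≤ A := by
    intro i
    by_contra hi
    rw [not_le] at hi
    have h3 : B i ^ 2 ≤ ∑ j, B j ^ 2 :=
      Finset.single_le_sum (f := fun j => B j ^ 2) (fun j _ => sq_nonneg _) (Finset.mem_univ i)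
    rw [← h1] at h3
    nlinarith
  rw [lat_sum10] at h1 h2
  obtain ⟨s, hs⟩ : ∃ s, s = B 0 + B 1 - A := ⟨_, rfl⟩
  have hodd : Odd s := by
    rw [hs]
    exact ((hB 0).add_odd (hB 1)).sub_odd hA
  have hs0 : 0 ≤ s := by omega
  have hAs : 0 ≤ A - s := by
    have := hle 0
    have := hle 1
    omega
  -- Cauchy-Schwarz
  have hcs : (4 * (A - s) + s + 1) ^ 2 ≤ 16 * ((A - s) ^ 2 + 1 - s ^ 2) := by
    obtain ⟨L, hL⟩ : ∃ L, L = 4 * (A - s) + s + 1 := ⟨_, rfl⟩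
    have hL' : L = 2 * (B 0 - s) + 2 * (B 1 - s) + B 2 + B 3 + B 4 + B 5 + B 6 + B 7 + B 8 + B 9 := by
      rw [hL]
      linear_combination -h2 + hs
    have hR : (A - s) ^ 2 + 1 - s ^ 2 = (B 0 - s) ^ 2 + (B 1 - s) ^ 2 + B 2 ^ 2 + B 3 ^ 2 + B 4 ^ 2 +
        B 5 ^ 2 + B 6 ^ 2 + B 7 ^ 2 + B 8 ^ 2 + B 9 ^ 2 := by
      linear_combination h1 - 2 * s * hs
    rw [← hL, hR]
    have key : 16 * (16 * ((B 0 - s) ^ 2 + (B 1 - s) ^ 2 + B 2 ^ 2 + B 3 ^ 2 + B 4 ^ 2 +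
        B 5 ^ 2 + B 6 ^ 2 + B 7 ^ 2 + B 8 ^ 2 + B 9 ^ 2) - L ^ 2) =
        (16 * (B 0 - s) - 2 * L) ^ 2 + (16 * (B 1 - s) - 2 * L) ^ 2 + (16 * B 2 - L) ^ 2 +
        (16 * B 3 - L) ^ 2 + (16 * B 4 - L) ^ 2 + (16 * B 5 - L) ^ 2 + (16 * B 6 - L) ^ 2 +
        (16 * B 7 - L) ^ 2 + (16 * B 8 - L) ^ 2 + (16 * B 9 - L) ^ 2 := by
      linear_combination (-32) * L * hL'
    have hnn : 0 ≤ (16 * (B 0 - s) - 2 * L) ^ 2 + (16 * (B 1 - s) - 2 * L) ^ 2 + (16 * B 2 - L) ^ 2 +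
        (16 * B 3 - L) ^ 2 + (16 * B 4 - L) ^ 2 + (16 * B 5 - L) ^ 2 + (16 * B 6 - L) ^ 2 +
        (16 * B 7 - L) ^ 2 + (16 * B 8 - L) ^ 2 + (16 * B 9 - L) ^ 2 := by positivity
    rw [← key] at hnn
    linarith
  have h5 : 0 ≤ (A - s) * (s + 1) := mul_nonneg hAs (by omega)
  have h6 : s = 0 := by
    by_contra h7
    have h8 : 1 ≤ s := by omega
    have h9 : 1 ≤ s ^ 2 := one_le_pow₀ h8
    have e : (4 * (A - s) + s + 1) ^ 2 = 16 * (A - s) ^ 2 + 8 * ((A - s) * (s + 1)) + (s + 1) ^ 2 := by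
      ring
    have h10 : 0 < (s + 1) ^ 2 := by positivity
    rw [e] at hcs
    clear h1 h2 hle
    linarith
  rw [h6] at hodd
  exact absurd hodd (by decide)

theorem case_two (a : ℤ) (b : Fin 10 → ℤ) (hb : Antitone b) (hb0 : 0 ≤ b 9)
    (h1 : ∑ i, b i ^ 2 = a ^ 2) (h2 : ∑ i, b i = 3 * a) (h3 : b 0 + b 1 + b 2 ≤ a) :
    ∃ c : ℤ, 0 ≤ c ∧ a = 3 * c ∧ ∀ i : Fin 10, b i = if (i : ℕ) < 9 then c else 0 := by
  rw [lat_sum10] at h1 h2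
  have m01 : b 1 ≤ b 0 := hb (by decide)
  have m12 : b 2 ≤ b 1 := hb (by decide)
  have m3 : b 3 ≤ b 2 := hb (by decide)
  have m4 : b 4 ≤ b 2 := hb (by decide)
  have m5 : b 5 ≤ b 2 := hb (by decide)
  have m6 : b 6 ≤ b 2 := hb (by decide)
  have m7 : b 7 ≤ b 2 := hb (by decide)
  have m8 : b 8 ≤ b 2 := hb (by decide)
  have m9 : b 9 ≤ b 2 := hb (by decide)
  have n3 : b 9 ≤ b 3 := hb (by decide)
  have n4 : b 9 ≤ b 4 := hb (by decide)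
  have n5 : b 9 ≤ b 5 := hb (by decide)
  have n6 : b 9 ≤ b 6 := hb (by decide)
  have n7 : b 9 ≤ b 7 := hb (by decide)
  have n8 : b 9 ≤ b 8 := hb (by decide)
  have p3 : 0 ≤ b 3 * (b 2 - b 3) := mul_nonneg (by linarith) (by linarith)
  have p4 : 0 ≤ b 4 * (b 2 - b 4) := mul_nonneg (by linarith) (by linarith)
  have p5 : 0 ≤ b 5 * (b 2 - b 5) := mul_nonneg (by linarith) (by linarith)
  have p6 : 0 ≤ b 6 * (b 2 - b 6) := mul_nonneg (by linarith) (by linarith)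
  have p7 : 0 ≤ b 7 * (b 2 - b 7) := mul_nonneg (by linarith) (by linarith)
  have p8 : 0 ≤ b 8 * (b 2 - b 8) := mul_nonneg (by linarith) (by linarith)
  have p9 : 0 ≤ b 9 * (b 2 - b 9) := mul_nonneg (by linarith) (by linarith)
  have p01 : 0 ≤ (b 0 - b 2) * (b 1 - b 2) := mul_nonneg (by linarith) (by linarith)
  have hb2 : 0 ≤ b 2 := by linarith
  have hu : 0 ≤ (a - b 2 - (b 0 + b 1)) * ((a - b 2) + (b 0 + b 1) - 3 * b 2) :=
    mul_nonneg (by linarith) (by linarith)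
  have ha3 : 0 ≤ b 2 * (a - 3 * b 2) := mul_nonneg hb2 (by linarith)
  -- the identity behind the inequality
  have hid : b 3 * (b 2 - b 3) + b 4 * (b 2 - b 4) + b 5 * (b 2 - b 5) + b 6 * (b 2 - b 6) +
      b 7 * (b 2 - b 7) + b 8 * (b 2 - b 8) + b 9 * (b 2 - b 9) + 2 * ((b 0 - b 2) * (b 1 - b 2)) +
      (a - b 2 - (b 0 + b 1)) * ((a - b 2) + (b 0 + b 1) - 3 * b 2) + 2 * (b 2 * (a - 3 * b 2)) = 0 := by
    linear_combination b 2 * h2 - h1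
  have q : b 2 * (a - 3 * b 2) = 0 := by linarith
  have q9 : b 9 * (b 2 - b 9) = 0 := by linarith
  rcases mul_eq_zero.mp q with h | h
  · refine ⟨0, le_refl _, ?_, ?_⟩
    · linarith
    · have ha : a = 0 := by linarith
      have z0 : b 0 = 0 := by linarith
      have z1 : b 1 = 0 := by linarith
      intro i
      fin_cases i <;> simp <;> linarith
  · have ha : a = 3 * b 2 := by linarith
    refine ⟨b 2, hb2, ha, ?_⟩
    have z0 : b 0 = b 2 := by linarith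
    have z1 : b 1 = b 2 := by linarith
    have z9 : b 9 = 0 := by
      rcases mul_eq_zero.mp q9 with h9 | h9
      · exact h9
      · linarith
    intro i
    fin_cases i <;> simp <;> linarith

end Pool.Agent.H92.CR
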