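import Mathlib
import Pool.Agent.H92.CR.Proj

set_option autoImplicit false

/-!
# CR-4a: the quadratic transformation

`sq (v) = (v1 v2, v0 v2, v0 v1)`.  Let `v 0, v 1, v 2` be the coordinate vectors, `v i` (`i ≥ 3`)
with nonzero coordinates, and `v' i = sq (v i)` for `i ≥ 3`, `v' i = v i` for `i ≤ 2`.

`pcurve_quad`: let `G ≠ 0` be homogeneous of degree `d` in `mI (v' i) ^ m i` for all `i`.
(a) `monomials`: every monomial `X^a Y^b Z^c` of `G` has `m 0 ≤ b + c`, `m 1 ≤ a + c`,
`m 2 ≤ a + b`.  (Put `X = 1`: the substitution `![1, X 0, X 1]`, an algebra map to `k[Y, Z]`,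
maps `mI e0` into `idealOfVars (Fin 2) k`, so `G (1, Y, Z)` has no monomials of degree `< m 0`
(`mem_pow_idealOfVars_iff'`), and its coefficient at `Y^b Z^c` is the coefficient of `G` at
`X^(d-b-c) Y^b Z^c`.)
(b) put `H = ∑_{s ∈ G.support} coeff s G * X^(b+c-m0) Y^(a+c-m1) Z^(a+b-m2)`
(`s = (a, b, c)`): so `X^m0 Y^m1 Z^m2 * H = aeval ![X1*X2, X0*X2, X0*X1] G`; `H ≠ 0` (the map
`(a,b,c) ↦ (b+c-m0, a+c-m1, a+b-m2)` is injective on the support, as there
`b+c ≥ m0` etc.; so the coefficient of `H` at the image of `s` is `coeff s G`; or: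
`aeval ![X1*X2, X0*X2, X0*X1] G ≠ 0` since the monomials `X^(b+c) Y^(a+c) Z^(a+b)` are
different); `H` is homogeneous of degree `2d - m0 - m1 - m2`.
(c) `i ≥ 3`: `aeval_mem` with `s = ![X1*X2, X0*X2, X0*X1]`, `w = v i`, and `mem_of_mul_mem`.
(d) at `e0`: each monomial of `H` has `Y, Z`-degree `(a+c-m1) + (a+b-m2) ≥ d - m1 - m2`
(truncated subtraction), and `Y, Z ∈ mI e0`, so the monomial lies in
`mI e0 ^ (d - m1 - m2)`; similarly for `e1`, `e2`.
-/

namespace Pool.Agent.H92.CR

open Pool.Agent.H13 MvPolynomial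

variable {k : Type*} [Field k] {n : ℕ}

/-- the quadratic map on coordinate vectors -/
def sq (v : Fin 3 → k) : Fin 3 → k := ![v 1 * v 2, v 0 * v 2, v 0 * v 1]

/-- the first three indices -/
def i0 (hn : 3 ≤ n) : Fin n := ⟨0, by omega⟩
def i1 (hn : 3 ≤ n) : Fin n := ⟨1, by omega⟩
def i2 (hn : 3 ≤ n) : Fin n := ⟨2, by omega⟩

/-- the transformed multiplicities (truncated subtraction) -/
def crm (hn : 3 ≤ n) (d : ℕ) (m : Fin n → ℕ) : Fin n → ℕ := fun i =>
  if i = i0 hn then d - m (i1 hn) - m (i2 hn) else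
  if i = i1 hn then d - m (i0 hn) - m (i2 hn) else
  if i = i2 hn then d - m (i0 hn) - m (i1 hn) else m i

theorem quada_deg (s : Fin 3 →₀ ℕ) : s.degree = s 0 + s 1 + s 2 := by
  rw [Finsupp.degree_eq_sum, Fin.sum_univ_three]

theorem quada_hom {G : MvPolynomial (Fin 3) k} {d : ℕ} (hG : G.IsHomogeneous d) {s : Fin 3 →₀ ℕ}
    (hs : G.coeff s ≠ 0) : s 0 + s 1 + s 2 = d := by
  rw [← quada_deg]
  by_contra h
  exact hs (hG.coeff_eq_zero h)

theorem quada_sub (j : Fin 3) (e : Fin 3 → k) (he : ∀ i, e i = if i = j then 1 else 0) {d m : ℕ}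
    {G : MvPolynomial (Fin 3) k} (hG : G.IsHomogeneous d) (hm : G ∈ mI e ^ m) {s : Fin 3 →₀ ℕ}
    (hs : G.coeff s ≠ 0) : m + s j ≤ s 0 + s 1 + s 2 := by
  classical
  set φ : MvPolynomial (Fin 3) k →ₐ[k] MvPolynomial (Fin 3) k :=
    aeval (fun i => if i = j then 1 else X i) with hφ
  have hφe : ∀ F, constantCoeff (φ F) = eval e F := by
    intro F
    have : (constantCoeff : MvPolynomial (Fin 3) k →+* k).comp (φ : _ →+* _) = eval e := by
      apply MvPolynomial.ringHom_ext
      · intro c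
        simp [hφ]
      · intro i
        rw [eval_X, he i, RingHom.comp_apply]
        change constantCoeff (φ (X i)) = _
        rw [hφ, aeval_X]
        split_ifs <;> simp
    exact DFunLike.congr_fun this F
  have h1 : Ideal.map (φ : MvPolynomial (Fin 3) k →+* MvPolynomial (Fin 3) k) (mI e) ≤
      idealOfVars (Fin 3) k := by
    rw [Ideal.map_le_iff_le_comap]
    intro F hF
    rw [Ideal.mem_comap, ← pow_one (idealOfVars (Fin 3) k), mem_pow_idealOfVars_iff']
    intro x hx
    have hx0 : x = 0 := by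
      have : x.degree = 0 := by omega
      exact (Finsupp.degree_eq_zero_iff x).1 this
    rw [hx0, ← constantCoeff_eq]
    change constantCoeff (φ F) = 0
    rw [hφe]
    exact mem_mI.mp hF
  have h2 : φ G ∈ idealOfVars (Fin 3) k ^ m := by
    have h3 := Ideal.mem_map_of_mem (φ : MvPolynomial (Fin 3) k →+* MvPolynomial (Fin 3) k) hm
    rw [Ideal.map_pow] at h3
    exact Ideal.pow_right_mono h1 m h3
  have hmon : ∀ (t : Fin 3 →₀ ℕ) (c : k), φ (monomial t c) = monomial (t.erase j) c := by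
    intro t c
    rw [hφ, aeval_monomial, monomial_eq, Finsupp.prod_fintype _ _ (fun _ => pow_zero _),
      Finsupp.prod_fintype _ _ (fun _ => pow_zero _), algebraMap_eq]
    congr 1
    refine Finset.prod_congr rfl fun i _ => ?_
    by_cases hi : i = j
    · rw [if_pos hi, hi, Finsupp.erase_same, one_pow, pow_zero]
    · rw [if_neg hi, Finsupp.erase_ne hi]
  have h3 : (φ G).coeff (s.erase j) = G.coeff s := by
    conv_lhs => rw [G.as_sum, map_sum, coeff_sum]
    rw [Finset.sum_eq_single s]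
    · rw [hmon, coeff_monomial, if_pos rfl]
    · intro t ht hts
      rw [hmon, coeff_monomial, if_neg]
      intro h4
      apply hts
      have e1 := quada_hom hG (mem_support_iff.mp ht)
      have e2 := quada_hom hG hs
      have e3 : ∀ i, i ≠ j → t i = s i := by
        intro i hi
        have := DFunLike.congr_fun h4 i
        rwa [Finsupp.erase_ne hi, Finsupp.erase_ne hi] at this
      have e4 : t j = s j := by
        fin_cases j
        · have a1 := e3 1 (by decide)
          have a2 := e3 2 (by decide)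
          change t 0 = s 0
          omega
        · have a1 := e3 0 (by decide)
          have a2 := e3 2 (by decide)
          change t 1 = s 1
          omega
        · have a1 := e3 0 (by decide)
          have a2 := e3 1 (by decide)
          change t 2 = s 2
          omega
      ext i
      by_cases hi : i = j
      · rw [hi, e4]
      · exact e3 i hi
    · intro h
      exact absurd (mem_support_iff.mpr hs) h
  rw [mem_pow_idealOfVars_iff'] at h2
  have h4 : m ≤ (s.erase j).degree := by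
    by_contra hcon
    push Not at hcon
    have := h2 _ hcon
    rw [h3] at this
    exact hs this
  have h5 : (s.erase j).degree + s j = s 0 + s 1 + s 2 := by
    rw [quada_deg]
    fin_cases j
    · change (s.erase 0) 0 + (s.erase 0) 1 + (s.erase 0) 2 + s 0 = _
      rw [Finsupp.erase_same, Finsupp.erase_ne (by decide), Finsupp.erase_ne (by decide)]
      omega
    · change (s.erase 1) 0 + (s.erase 1) 1 + (s.erase 1) 2 + s 1 = _
      rw [Finsupp.erase_same, Finsupp.erase_ne (by decide), Finsupp.erase_ne (by decide)]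
      omega
    · change (s.erase 2) 0 + (s.erase 2) 1 + (s.erase 2) 2 + s 2 = _
      rw [Finsupp.erase_same, Finsupp.erase_ne (by decide), Finsupp.erase_ne (by decide)]
      omega
  omega

theorem quada_mem (j : Fin 3) (e : Fin 3 → k) (he : ∀ i, e i = if i = j then 1 else 0)
    (t : Fin 3 →₀ ℕ) (c : k) {N : ℕ} (h : N + t j ≤ t 0 + t 1 + t 2) :
    monomial t c ∈ mI e ^ N := by
  have hX : ∀ i, i ≠ j → (X i : MvPolynomial (Fin 3) k) ∈ mI e := by
    intro i hi
    rw [mem_mI, eval_X, he i, if_neg hi]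
  have hpow : ∀ i, i ≠ j → ∀ l, (X i : MvPolynomial (Fin 3) k) ^ l ∈ mI e ^ l :=
    fun i hi l => Ideal.pow_mem_pow (hX i hi) l
  have e1 : (monomial t c : MvPolynomial (Fin 3) k) = C c * (X 0 ^ t 0 * X 1 ^ t 1 * X 2 ^ t 2) := by
    rw [monomial_eq, Finsupp.prod_fintype _ _ (fun _ => pow_zero _), Fin.prod_univ_three]
  rw [e1]
  apply Ideal.mul_mem_left
  fin_cases j
  · have h2 := Ideal.mul_mem_mul (hpow 1 (by decide) (t 1)) (hpow 2 (by decide) (t 2))
    rw [← pow_add] at h2
    rw [mul_assoc]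
    apply Ideal.mul_mem_left
    refine Ideal.pow_le_pow_right ?_ h2
    change N + t 0 ≤ _ at h
    omega
  · have h2 := Ideal.mul_mem_mul (hpow 0 (by decide) (t 0)) (hpow 2 (by decide) (t 2))
    rw [← pow_add] at h2
    rw [mul_comm (X 0 ^ t 0) (X 1 ^ t 1), mul_assoc]
    apply Ideal.mul_mem_left
    refine Ideal.pow_le_pow_right ?_ h2
    change N + t 1 ≤ _ at h
    omega
  · have h2 := Ideal.mul_mem_mul (hpow 0 (by decide) (t 0)) (hpow 1 (by decide) (t 1))
    rw [← pow_add] at h2
    apply Ideal.mul_mem_right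
    refine Ideal.pow_le_pow_right ?_ h2
    change N + t 2 ≤ _ at h
    omega

/-- the transformed exponents -/
noncomputable def quada_ψ (a b c : ℕ) (s : Fin 3 →₀ ℕ) : Fin 3 →₀ ℕ :=
  Finsupp.equivFunOnFinite.symm ![s 1 + s 2 - a, s 0 + s 2 - b, s 0 + s 1 - c]

theorem quada_ψ0 (a b c : ℕ) (s : Fin 3 →₀ ℕ) : quada_ψ a b c s 0 = s 1 + s 2 - a := rfl
theorem quada_ψ1 (a b c : ℕ) (s : Fin 3 →₀ ℕ) : quada_ψ a b c s 1 = s 0 + s 2 - b := rfl
theorem quada_ψ2 (a b c : ℕ) (s : Fin 3 →₀ ℕ) : quada_ψ a b c s 2 = s 0 + s 1 - c := rfl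

theorem pcurve_quad (hn : 3 ≤ n) (v : Fin n → Fin 3 → k)
    (h0 : v (i0 hn) = ![1, 0, 0]) (h1 : v (i1 hn) = ![0, 1, 0]) (h2 : v (i2 hn) = ![0, 0, 1])
    (hv : ∀ i : Fin n, 3 ≤ (i : ℕ) → ∀ j, v i j ≠ 0) (d : ℕ) (m : Fin n → ℕ)
    (h : PCurve (fun i => if 3 ≤ (i : ℕ) then sq (v i) else v i) d m) :
    m (i0 hn) + m (i1 hn) + m (i2 hn) ≤ 2 * d ∧
      PCurve v (2 * d - m (i0 hn) - m (i1 hn) - m (i2 hn)) (crm hn d m) := by
  classical
  obtain ⟨G, hG0, hG, hmem'⟩ := h
  have hmem : ∀ i : Fin n, G ∈ mI (if 3 ≤ (i : ℕ) then sq (v i) else v i) ^ m i := hmem'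
  set a := m (i0 hn) with ha
  set b := m (i1 hn) with hb
  set c := m (i2 hn) with hc
  have he0 : ∀ i : Fin 3, (![1, 0, 0] : Fin 3 → k) i = if i = 0 then 1 else 0 := by
    intro i; fin_cases i <;> simp
  have he1 : ∀ i : Fin 3, (![0, 1, 0] : Fin 3 → k) i = if i = 1 then 1 else 0 := by
    intro i; fin_cases i <;> simp
  have he2 : ∀ i : Fin 3, (![0, 0, 1] : Fin 3 → k) i = if i = 2 then 1 else 0 := by
    intro i; fin_cases i <;> simp
  have hm0 : G ∈ mI (![1, 0, 0] : Fin 3 → k) ^ a := by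
    have := hmem (i0 hn)
    rwa [if_neg (by simp [i0]), h0] at this
  have hm1 : G ∈ mI (![0, 1, 0] : Fin 3 → k) ^ b := by
    have := hmem (i1 hn)
    rwa [if_neg (by simp [i1]), h1] at this
  have hm2 : G ∈ mI (![0, 0, 1] : Fin 3 → k) ^ c := by
    have := hmem (i2 hn)
    rwa [if_neg (by simp [i2]), h2] at this
  have hs0 : ∀ s, G.coeff s ≠ 0 → a ≤ s 1 + s 2 := fun s hs => by
    have := quada_sub 0 _ he0 hG hm0 hs
    omega
  have hs1 : ∀ s, G.coeff s ≠ 0 → b ≤ s 0 + s 2 := fun s hs => by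
    have := quada_sub 1 _ he1 hG hm1 hs
    omega
  have hs2 : ∀ s, G.coeff s ≠ 0 → c ≤ s 0 + s 1 := fun s hs => by
    have := quada_sub 2 _ he2 hG hm2 hs
    omega
  obtain ⟨s₀, hs₀⟩ := ne_zero_iff.mp hG0
  have hsum : a + b + c ≤ 2 * d := by
    have e1 := hs0 _ hs₀
    have e2 := hs1 _ hs₀
    have e3 := hs2 _ hs₀
    have e4 := quada_hom hG hs₀
    omega
  refine ⟨hsum, ?_⟩
  set H : MvPolynomial (Fin 3) k :=
    ∑ s ∈ G.support, monomial (quada_ψ a b c s) (G.coeff s) with hH
  have hcoeff : ∀ s, G.coeff s ≠ 0 → H.coeff (quada_ψ a b c s) = G.coeff s := by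
    intro s hs
    rw [hH, coeff_sum, Finset.sum_eq_single s]
    · rw [coeff_monomial, if_pos rfl]
    · intro t ht hts
      rw [coeff_monomial, if_neg]
      intro h4
      apply hts
      have ht' := mem_support_iff.mp ht
      have q0 := DFunLike.congr_fun h4 0
      have q1 := DFunLike.congr_fun h4 1
      have q2 := DFunLike.congr_fun h4 2
      rw [quada_ψ0, quada_ψ0] at q0
      rw [quada_ψ1, quada_ψ1] at q1
      rw [quada_ψ2, quada_ψ2] at q2
      have a0 := hs0 _ hs
      have a1 := hs1 _ hs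
      have a2 := hs2 _ hs
      have b0 := hs0 _ ht'
      have b1 := hs1 _ ht'
      have b2 := hs2 _ ht'
      ext i
      fin_cases i
      · change t 0 = s 0
        omega
      · change t 1 = s 1
        omega
      · change t 2 = s 2
        omega
    · intro h
      exact absurd (mem_support_iff.mpr hs) h
  have hH0 : H ≠ 0 := by
    intro hz
    have := hcoeff _ hs₀
    rw [hz, coeff_zero] at this
    exact hs₀ this.symm
  have hHhom : H.IsHomogeneous (2 * d - a - b - c) := by
    rw [hH]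
    apply IsHomogeneous.sum
    intro s hs
    have hs' := mem_support_iff.mp hs
    apply isHomogeneous_monomial
    rw [quada_deg, quada_ψ0, quada_ψ1, quada_ψ2]
    have a0 := hs0 _ hs'
    have a1 := hs1 _ hs'
    have a2 := hs2 _ hs'
    have a3 := quada_hom hG hs'
    omega
  refine ⟨H, hH0, hHhom, ?_⟩
  have hmulH : monomial (Finsupp.equivFunOnFinite.symm ![a, b, c]) 1 * H =
      aeval ![X 1 * X 2, X 0 * X 2, X 0 * X 1] G := by
    rw [hH, Finset.mul_sum]
    conv_rhs => rw [G.as_sum, map_sum]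
    refine Finset.sum_congr rfl fun s hs => ?_
    have hs' := mem_support_iff.mp hs
    have a0 := hs0 _ hs'
    have a1 := hs1 _ hs'
    have a2 := hs2 _ hs'
    rw [monomial_mul, one_mul, aeval_monomial, Finsupp.prod_fintype _ _ (fun _ => pow_zero _),
      Fin.prod_univ_three, algebraMap_eq, monomial_eq,
      Finsupp.prod_fintype _ _ (fun _ => pow_zero _), Fin.prod_univ_three]
    have r0 : (Finsupp.equivFunOnFinite.symm ![a, b, c] + quada_ψ a b c s) 0 = s 1 + s 2 := by
      rw [Finsupp.add_apply, quada_ψ0]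
      change a + _ = _
      omega
    have r1 : (Finsupp.equivFunOnFinite.symm ![a, b, c] + quada_ψ a b c s) 1 = s 0 + s 2 := by
      rw [Finsupp.add_apply, quada_ψ1]
      change b + _ = _
      omega
    have r2 : (Finsupp.equivFunOnFinite.symm ![a, b, c] + quada_ψ a b c s) 2 = s 0 + s 1 := by
      rw [Finsupp.add_apply, quada_ψ2]
      change c + _ = _
      omega
    rw [r0, r1, r2]
    simp only [Matrix.cons_val_zero, Matrix.cons_val_one, Matrix.cons_val]
    ring
  have hcase : ∀ i : Fin n, i = i0 hn ∨ i = i1 hn ∨ i = i2 hn ∨ 3 ≤ (i : ℕ) := by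
    intro i
    by_cases q0 : (i : ℕ) = 0
    · left; exact Fin.ext q0
    by_cases q1 : (i : ℕ) = 1
    · right; left; exact Fin.ext q1
    by_cases q2 : (i : ℕ) = 2
    · right; right; left; exact Fin.ext q2
    · right; right; right; omega
  have n10 : i1 hn ≠ i0 hn := by
    intro q; have := congrArg Fin.val q; simp [i1, i0] at this
  have n20 : i2 hn ≠ i0 hn := by
    intro q; have := congrArg Fin.val q; simp [i2, i0] at this
  have n21 : i2 hn ≠ i1 hn := by
    intro q; have := congrArg Fin.val q; simp [i2, i1] at this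
  intro i
  rcases hcase i with rfl | rfl | rfl | hi
  · have e1 : crm hn d m (i0 hn) = d - b - c := by unfold crm; rw [if_pos rfl]
    rw [e1, h0, hH]
    refine Ideal.sum_mem _ fun s hs => ?_
    have hs' := mem_support_iff.mp hs
    apply quada_mem 0 _ he0
    rw [quada_ψ0, quada_ψ1, quada_ψ2]
    have a3 := quada_hom hG hs'
    omega
  · have e1 : crm hn d m (i1 hn) = d - a - c := by unfold crm; rw [if_neg n10, if_pos rfl]
    rw [e1, h1, hH]
    refine Ideal.sum_mem _ fun s hs => ?_
    have hs' := mem_support_iff.mp hs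
    apply quada_mem 1 _ he1
    rw [quada_ψ0, quada_ψ1, quada_ψ2]
    have a3 := quada_hom hG hs'
    omega
  · have e1 : crm hn d m (i2 hn) = d - a - b := by
      unfold crm; rw [if_neg n20, if_neg n21, if_pos rfl]
    rw [e1, h2, hH]
    refine Ideal.sum_mem _ fun s hs => ?_
    have hs' := mem_support_iff.mp hs
    apply quada_mem 2 _ he2
    rw [quada_ψ0, quada_ψ1, quada_ψ2]
    have a3 := quada_hom hG hs'
    omega
  · have e1 : crm hn d m i = m i := by
      unfold crm
      rw [if_neg, if_neg, if_neg]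
      · rintro rfl; simp [i2] at hi
      · rintro rfl; simp [i1] at hi
      · rintro rfl; simp [i0] at hi
    rw [e1]
    have h3 := hmem i
    rw [if_pos hi] at h3
    have h4 : aeval ![X 1 * X 2, X 0 * X 2, X 0 * X 1] G ∈ mI (v i) ^ m i := by
      refine aeval_mem _ ?_ h3
      intro j
      fin_cases j <;> simp [sq]
    rw [← hmulH] at h4
    refine mem_of_mul_mem ?_ h4
    rw [eval_monomial, one_mul, Finsupp.prod_fintype _ _ (fun _ => pow_zero _)]
    exact Finset.prod_ne_zero_iff.mpr fun j _ => pow_ne_zero _ (hv i hi j)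

end Pool.Agent.H92.CR
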