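import Mathlib
import Pool.Agent.H92.CR.QuadA

set_option autoImplicit false

/-!
# CR-4b: the quadratic transformation on classes

`pos_cr`: `(cr y).1 = 2 y.1 - (y0 + y1 + y2) ≥ 0` as `(y0+y1+y2)^2 ≤ 3 (y0^2+y1^2+y2^2) ≤ 3 y.1^2`
and `y.1 ≥ 0`; the square is preserved (`BB_cr`).  `BB_cr`, `K_cr`: split off the three first
indices from the sums (`Finset.sum_ite_eq`-style: the difference `(cr y).2 i - y.2 i` is
`t` at the three first indices and `0` elsewhere, where `t = y.1 - y0 - y1 - y2`).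

`nefP_quad`: by `pcurve_quad`, with `m' = crm m` (truncated) and `y.2 i ≥ 0`:
`∑ y.2 i * m' i ≤ y.1 * (2d - m0 - m1 - m2)` and `m' 0 ≥ d - m1 - m2` in `ℝ` etc. gives
`∑ (cr y).2 i * m i ≤ (cr y).1 * d` by linear arithmetic:
`(cr y).1 d - ∑ (cr y).2 i m i = y.1 (2d - m0 - m1 - m2) - y0 (d - m1 - m2) - y1 (d - m0 - m2)
- y2 (d - m0 - m1) - ∑_{i ≥ 3} y.2 i m i`.  The nonnegativity of
`(cr y).2 0 = y.1 - y.2 1 - y.2 2`: the line `X 0 = 0` passes through `e1`, `e2`: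
`PCurve v 1 (fun i => if i = i1 ∨ i = i2 then 1 else 0)`, and `NefP v y`.
-/

namespace Pool.Agent.H92.CR

open Pool.Agent.H13 MvPolynomial

variable {k : Type*} [Field k] {n : ℕ}

/-- the action on real classes -/
noncomputable def cr (hn : 3 ≤ n) (y : ℝ × (Fin n → ℝ)) : ℝ × (Fin n → ℝ) :=
  (2 * y.1 - y.2 (i0 hn) - y.2 (i1 hn) - y.2 (i2 hn), fun i =>
    if i = i0 hn then y.1 - y.2 (i1 hn) - y.2 (i2 hn) else
    if i = i1 hn then y.1 - y.2 (i0 hn) - y.2 (i2 hn) else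
    if i = i2 hn then y.1 - y.2 (i0 hn) - y.2 (i1 hn) else y.2 i)

theorem quad_ne01 (hn : 3 ≤ n) : i0 hn ≠ i1 hn := by
  simp [i0, i1, Fin.ext_iff]

theorem quad_ne02 (hn : 3 ≤ n) : i0 hn ≠ i2 hn := by
  simp [i0, i2, Fin.ext_iff]

theorem quad_ne12 (hn : 3 ≤ n) : i1 hn ≠ i2 hn := by
  simp [i1, i2, Fin.ext_iff]

theorem quad_ne_of (hn : 3 ≤ n) {i : Fin n} (hi : 3 ≤ (i : ℕ)) :
    i ≠ i0 hn ∧ i ≠ i1 hn ∧ i ≠ i2 hn := by
  refine ⟨?_, ?_, ?_⟩ <;> intro h <;> rw [h] at hi <;> simp [i0, i1, i2] at hi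

theorem quad_cases (hn : 3 ≤ n) (i : Fin n) :
    i = i0 hn ∨ i = i1 hn ∨ i = i2 hn ∨ 3 ≤ (i : ℕ) := by
  rcases i with ⟨i, hi⟩
  simp only [i0, i1, i2, Fin.mk.injEq]
  omega

theorem quad_split (hn : 3 ≤ n) (f : Fin n → ℝ) : ∑ i, f i = f (i0 hn) + f (i1 hn) + f (i2 hn) +
    ∑ i ∈ Finset.univ.filter (fun i : Fin n => 3 ≤ (i : ℕ)), f i := by
  rw [← Finset.sum_filter_add_sum_filter_not Finset.univ (fun i : Fin n => ¬ 3 ≤ (i : ℕ)) f]
  congr 1
  · have h : Finset.univ.filter (fun i : Fin n => ¬ 3 ≤ (i : ℕ)) = {i0 hn, i1 hn, i2 hn} := by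
      ext i
      simp only [Finset.mem_filter, Finset.mem_univ, true_and, Finset.mem_insert,
        Finset.mem_singleton]
      constructor
      · intro hi
        rcases quad_cases hn i with h | h | h | h
        · exact Or.inl h
        · exact Or.inr (Or.inl h)
        · exact Or.inr (Or.inr h)
        · exact absurd h hi
      · intro h hi
        have := quad_ne_of hn hi
        tauto
    rw [h, Finset.sum_insert, Finset.sum_insert, Finset.sum_singleton, add_assoc]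
    · rw [Finset.mem_singleton]
      exact quad_ne12 hn
    · simp only [Finset.mem_insert, Finset.mem_singleton, not_or]
      exact ⟨quad_ne01 hn, quad_ne02 hn⟩
  · refine Finset.sum_congr ?_ fun _ _ => rfl
    ext i
    simp

theorem cr_fst (hn : 3 ≤ n) (y : ℝ × (Fin n → ℝ)) :
    (cr hn y).1 = 2 * y.1 - y.2 (i0 hn) - y.2 (i1 hn) - y.2 (i2 hn) := rfl

theorem cr_i0 (hn : 3 ≤ n) (y : ℝ × (Fin n → ℝ)) :
    (cr hn y).2 (i0 hn) = y.1 - y.2 (i1 hn) - y.2 (i2 hn) := by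
  simp [cr]

theorem cr_i1 (hn : 3 ≤ n) (y : ℝ × (Fin n → ℝ)) :
    (cr hn y).2 (i1 hn) = y.1 - y.2 (i0 hn) - y.2 (i2 hn) := by
  simp [cr, (quad_ne01 hn).symm]

theorem cr_i2 (hn : 3 ≤ n) (y : ℝ × (Fin n → ℝ)) :
    (cr hn y).2 (i2 hn) = y.1 - y.2 (i0 hn) - y.2 (i1 hn) := by
  simp [cr, (quad_ne02 hn).symm, (quad_ne12 hn).symm]

theorem cr_of (hn : 3 ≤ n) (y : ℝ × (Fin n → ℝ)) {i : Fin n} (hi : 3 ≤ (i : ℕ)) :
    (cr hn y).2 i = y.2 i := by
  obtain ⟨h0, h1, h2⟩ := quad_ne_of hn hi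
  simp [cr, h0, h1, h2]

theorem cr_cr (hn : 3 ≤ n) (y : ℝ × (Fin n → ℝ)) : cr hn (cr hn y) = y := by
  refine Prod.ext ?_ ?_
  · rw [cr_fst, cr_fst, cr_i0, cr_i1, cr_i2]
    ring
  · funext i
    rcases quad_cases hn i with h | h | h | h
    · rw [h, cr_i0, cr_fst, cr_i1, cr_i2]
      ring
    · rw [h, cr_i1, cr_fst, cr_i0, cr_i2]
      ring
    · rw [h, cr_i2, cr_fst, cr_i0, cr_i1]
      ring
    · rw [cr_of hn _ h, cr_of hn _ h]

theorem BB_cr (hn : 3 ≤ n) (y v : ℝ × (Fin n → ℝ)) : BB (cr hn y) (cr hn v) = BB y v := by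
  unfold BB
  rw [quad_split hn, quad_split hn (fun i => y.2 i * v.2 i)]
  have h : ∑ i ∈ Finset.univ.filter (fun i : Fin n => 3 ≤ (i : ℕ)),
      (cr hn y).2 i * (cr hn v).2 i =
      ∑ i ∈ Finset.univ.filter (fun i : Fin n => 3 ≤ (i : ℕ)), y.2 i * v.2 i := by
    refine Finset.sum_congr rfl fun i hi => ?_
    rw [Finset.mem_filter] at hi
    rw [cr_of hn y hi.2, cr_of hn v hi.2]
  rw [h, cr_fst, cr_fst, cr_i0, cr_i0, cr_i1, cr_i1, cr_i2, cr_i2]
  ring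

theorem K_cr (hn : 3 ≤ n) (y : ℝ × (Fin n → ℝ)) :
    -3 * (cr hn y).1 + ∑ i, (cr hn y).2 i = -3 * y.1 + ∑ i, y.2 i := by
  rw [quad_split hn, quad_split hn y.2]
  have h : ∑ i ∈ Finset.univ.filter (fun i : Fin n => 3 ≤ (i : ℕ)), (cr hn y).2 i =
      ∑ i ∈ Finset.univ.filter (fun i : Fin n => 3 ≤ (i : ℕ)), y.2 i := by
    refine Finset.sum_congr rfl fun i hi => ?_
    rw [Finset.mem_filter] at hi
    rw [cr_of hn y hi.2]
  rw [h, cr_fst, cr_i0, cr_i1, cr_i2]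
  ring

theorem pos_cr (hn : 3 ≤ n) (y : ℝ × (Fin n → ℝ)) (hy : y ∈ Pos n) : cr hn y ∈ Pos n := by
  obtain ⟨h0, h1⟩ := hy
  constructor
  · rw [quad_split hn] at h1
    have h2 : 0 ≤ ∑ i ∈ Finset.univ.filter (fun i : Fin n => 3 ≤ (i : ℕ)), y.2 i ^ 2 :=
      Finset.sum_nonneg fun i _ => sq_nonneg _
    rw [cr_fst]
    by_contra hc
    have h3 : 2 * y.1 < y.2 (i0 hn) + y.2 (i1 hn) + y.2 (i2 hn) := by linarith
    have h4 : (2 * y.1) ^ 2 < (y.2 (i0 hn) + y.2 (i1 hn) + y.2 (i2 hn)) ^ 2 :=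
      pow_lt_pow_left₀ h3 (by linarith) (by norm_num)
    nlinarith [sq_nonneg (y.2 (i0 hn) - y.2 (i1 hn)), sq_nonneg (y.2 (i0 hn) - y.2 (i2 hn)),
      sq_nonneg (y.2 (i1 hn) - y.2 (i2 hn)), sq_nonneg y.1]
  · have h2 := BB_cr hn y y
    unfold BB at h2
    have e : ∀ f : Fin n → ℝ, ∑ i, f i ^ 2 = ∑ i, f i * f i := fun f =>
      Finset.sum_congr rfl fun i _ => pow_two (f i)
    rw [e] at h1 ⊢
    rw [pow_two] at h1 ⊢
    linarith

theorem nefP_quad (hn : 3 ≤ n) (v : Fin n → Fin 3 → k)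
    (h0 : v (i0 hn) = ![1, 0, 0]) (h1 : v (i1 hn) = ![0, 1, 0]) (h2 : v (i2 hn) = ![0, 0, 1])
    (hv : ∀ i : Fin n, 3 ≤ (i : ℕ) → ∀ j, v i j ≠ 0) (y : ℝ × (Fin n → ℝ)) (h : NefP v y) :
    NefP (fun i => if 3 ≤ (i : ℕ) then sq (v i) else v i) (cr hn y) := by
  have hline : ∀ (a b : Fin n) (j : Fin 3), a ≠ b → v a j = 0 → v b j = 0 →
      y.2 a + y.2 b ≤ y.1 := by
    intro a b j hab ha hb
    have h3 := h.2 1 (fun i => if i = a ∨ i = b then 1 else 0)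
      ⟨X j, X_ne_zero j, isHomogeneous_X k j, fun i => by
        by_cases hi : i = a ∨ i = b
        · simp only [if_pos hi, pow_one]
          rw [mem_mI, eval_X]
          rcases hi with hi | hi <;> rw [hi] <;> assumption
        · simp only [if_neg hi, pow_zero, Ideal.one_eq_top]
          exact Submodule.mem_top⟩
    have h4 : ∑ i, y.2 i * ((if i = a ∨ i = b then 1 else 0 : ℕ) : ℝ) = y.2 a + y.2 b := by
      have e : ∀ i, y.2 i * ((if i = a ∨ i = b then 1 else 0 : ℕ) : ℝ) =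
          (if i = a then y.2 i else 0) + (if i = b then y.2 i else 0) := by
        intro i
        by_cases h1 : i = a
        · have h2 : i ≠ b := fun h2 => hab (h1.symm.trans h2)
          simp [h1, hab]
        · by_cases h2 : i = b
          · simp [h2, hab.symm]
          · simp [h1, h2]
      rw [Finset.sum_congr rfl fun i _ => e i, Finset.sum_add_distrib, Finset.sum_ite_eq',
        Finset.sum_ite_eq', if_pos (Finset.mem_univ _), if_pos (Finset.mem_univ _)]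
    rw [h4] at h3
    simpa using h3
  constructor
  · intro i
    rcases quad_cases hn i with hi | hi | hi | hi
    · rw [hi, cr_i0]
      have := hline (i1 hn) (i2 hn) 0 (quad_ne12 hn) (by rw [h1]; rfl) (by rw [h2]; rfl)
      linarith
    · rw [hi, cr_i1]
      have := hline (i0 hn) (i2 hn) 1 (quad_ne02 hn) (by rw [h0]; rfl) (by rw [h2]; rfl)
      linarith
    · rw [hi, cr_i2]
      have := hline (i0 hn) (i1 hn) 2 (quad_ne01 hn) (by rw [h0]; rfl) (by rw [h1]; rfl)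
      linarith
    · rw [cr_of hn y hi]
      exact h.1 i
  · intro d m hm
    obtain ⟨hle, hP⟩ := pcurve_quad hn v h0 h1 h2 hv d m hm
    have h3 := h.2 _ _ hP
    rw [quad_split hn] at h3 ⊢
    have c0 : crm hn d m (i0 hn) = d - m (i1 hn) - m (i2 hn) := by simp [crm]
    have c1 : crm hn d m (i1 hn) = d - m (i0 hn) - m (i2 hn) := by
      simp [crm, (quad_ne01 hn).symm]
    have c2 : crm hn d m (i2 hn) = d - m (i0 hn) - m (i1 hn) := by
      simp [crm, (quad_ne02 hn).symm, (quad_ne12 hn).symm]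
    have e3 : ∑ i ∈ Finset.univ.filter (fun i : Fin n => 3 ≤ (i : ℕ)),
        y.2 i * ((crm hn d m i : ℕ) : ℝ) =
        ∑ i ∈ Finset.univ.filter (fun i : Fin n => 3 ≤ (i : ℕ)), (cr hn y).2 i * (m i : ℝ) := by
      refine Finset.sum_congr rfl fun i hi => ?_
      rw [Finset.mem_filter] at hi
      obtain ⟨g0, g1, g2⟩ := quad_ne_of hn hi.2
      rw [cr_of hn y hi.2]
      simp [crm, g0, g1, g2]
    rw [e3, c0, c1, c2] at h3
    rw [cr_fst, cr_i0, cr_i1, cr_i2]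
    have s0 : (d : ℝ) - m (i1 hn) - m (i2 hn) ≤ ((d - m (i1 hn) - m (i2 hn) : ℕ) : ℝ) := by
      have : d ≤ (d - m (i1 hn) - m (i2 hn)) + m (i1 hn) + m (i2 hn) := by omega
      have h5 : (d : ℝ) ≤ ((d - m (i1 hn) - m (i2 hn) : ℕ) : ℝ) + m (i1 hn) + m (i2 hn) := by
        exact_mod_cast this
      linarith
    have s1 : (d : ℝ) - m (i0 hn) - m (i2 hn) ≤ ((d - m (i0 hn) - m (i2 hn) : ℕ) : ℝ) := by
      have : d ≤ (d - m (i0 hn) - m (i2 hn)) + m (i0 hn) + m (i2 hn) := by omega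
      have h5 : (d : ℝ) ≤ ((d - m (i0 hn) - m (i2 hn) : ℕ) : ℝ) + m (i0 hn) + m (i2 hn) := by
        exact_mod_cast this
      linarith
    have s2 : (d : ℝ) - m (i0 hn) - m (i1 hn) ≤ ((d - m (i0 hn) - m (i1 hn) : ℕ) : ℝ) := by
      have : d ≤ (d - m (i0 hn) - m (i1 hn)) + m (i0 hn) + m (i1 hn) := by omega
      have h5 : (d : ℝ) ≤ ((d - m (i0 hn) - m (i1 hn) : ℕ) : ℝ) + m (i0 hn) + m (i1 hn) := by
        exact_mod_cast this
      linarith
    have s3 : ((2 * d - m (i0 hn) - m (i1 hn) - m (i2 hn) : ℕ) : ℝ) =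
        2 * d - m (i0 hn) - m (i1 hn) - m (i2 hn) := by
      have : (2 * d - m (i0 hn) - m (i1 hn) - m (i2 hn)) + m (i0 hn) + m (i1 hn) + m (i2 hn) =
          2 * d := by omega
      have h5 : ((2 * d - m (i0 hn) - m (i1 hn) - m (i2 hn) : ℕ) : ℝ) + m (i0 hn) + m (i1 hn) +
          m (i2 hn) = 2 * d := by exact_mod_cast this
      linarith
    rw [s3] at h3
    have k0 := mul_le_mul_of_nonneg_left s0 (h.1 (i0 hn))
    have k1 := mul_le_mul_of_nonneg_left s1 (h.1 (i1 hn))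
    have k2 := mul_le_mul_of_nonneg_left s2 (h.1 (i2 hn))
    nlinarith [k0, k1, k2, h3]

end Pool.Agent.H92.CR
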