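import Mathlib
import Pool.Agent.H92.CR.VG
import Pool.Agent.H92.CR.QuadA

set_option autoImplicit false

/-!
# CR-5a: general tuples

`vg_genT`: the conditions `det A ≠ 0` and `((adjugate A).mulVec (v i)) j ≠ 0` for all `i ≥ 3`
and all `j`, where `v i = (p i 0, p i 1, 1)` and `A = (v 0 | v 1 | v 2)` (columns), are
nonvanishing of finitely many polynomials in the coordinates of `p`, which are nonzero: take
`p 0 = (0,0)`, `p 1 = (1,0)`, `p 2 = (0,1)`, `p i = (1/3, 1/3)` for `i ≥ 3` (barycentric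
coordinates `1/3`).  So they hold for very general `p` (`vg_of_ne`, `vg_countable` or a finite
product of the polynomials).  `g = A⁻¹ = (det A)⁻¹ • adjugate A`.  (Or explicitly, with
`[P, Q, R] = det` of three coordinate vectors: the coordinates of `g v i` are
`[v i, v 1, v 2]/[v 0, v 1, v 2]`, `[v 0, v i, v 2]/[..]`, `[v 0, v 1, v i]/[..]`.)

`exists_matrix`: there is `t : ℂ` such that `a = (1, t, t²)` has `a ⬝ᵥ w i ≠ 0` for all `i`
(finitely many nonzero polynomials of degree `≤ 2` in `t`, `ℂ` infinite); take `h` with rows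
`(0,1,0), (0,0,1), a`: its determinant is `1`.
-/

namespace Pool.Agent.H92.CR

open Pool.Agent.H13 MvPolynomial

variable {n : ℕ}

/-- a general tuple of points of the plane -/
def GenT (hn : 3 ≤ n) (p : Fin n → Fin 2 → ℂ) : Prop :=
  ∃ g : Matrix (Fin 3) (Fin 3) ℂ, IsUnit g.det ∧
    g.mulVec ![p (i0 hn) 0, p (i0 hn) 1, 1] = ![1, 0, 0] ∧
    g.mulVec ![p (i1 hn) 0, p (i1 hn) 1, 1] = ![0, 1, 0] ∧
    g.mulVec ![p (i2 hn) 0, p (i2 hn) 1, 1] = ![0, 0, 1] ∧
    ∀ i : Fin n, 3 ≤ (i : ℕ) → ∀ j, g.mulVec ![p i 0, p i 1, 1] j ≠ 0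

/-- the determinant of three points -/
def D3 (a b c : Fin 2 → ℂ) : ℂ :=
  a 0 * (b 1 - c 1) - a 1 * (b 0 - c 0) + (b 0 * c 1 - c 0 * b 1)

/-- the same as a polynomial -/
noncomputable def D3p (a b c : Fin n) : MvPolynomial (Fin n × Fin 2) ℂ :=
  X (a, 0) * (X (b, 1) - X (c, 1)) - X (a, 1) * (X (b, 0) - X (c, 0)) +
    (X (b, 0) * X (c, 1) - X (c, 0) * X (b, 1))

theorem eval_D3p (a b c : Fin n) (p : Fin n → Fin 2 → ℂ) :
    eval (fun q : Fin n × Fin 2 => p q.1 q.2) (D3p a b c) = D3 (p a) (p b) (p c) := by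
  simp only [D3p, D3, map_add, map_sub, map_mul, eval_X]

theorem vg_D3 (a b c : Fin n) (hab : a ≠ b) (hac : a ≠ c) (hbc : b ≠ c) :
    VeryGeneral n (fun p => D3 (p a) (p b) (p c) ≠ 0) := by
  have h0 : D3p a b c ≠ 0 := by
    intro h
    have h1 := eval_D3p a b c
      (fun i => if i = a then ![0, 0] else if i = b then ![1, 0] else ![0, 1])
    rw [h, map_zero, if_pos rfl, if_neg hab.symm, if_pos rfl, if_neg hac.symm,
      if_neg hbc.symm] at h1
    simp [D3] at h1
  refine vg_mono (vg_of_ne _ h0) ?_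
  intro p hp
  rwa [eval_D3p] at hp

theorem genT_of_D3 (hn : 3 ≤ n) (p : Fin n → Fin 2 → ℂ)
    (h : D3 (p (i0 hn)) (p (i1 hn)) (p (i2 hn)) ≠ 0)
    (h0 : ∀ i : Fin n, 3 ≤ (i : ℕ) → D3 (p i) (p (i1 hn)) (p (i2 hn)) ≠ 0)
    (h1 : ∀ i : Fin n, 3 ≤ (i : ℕ) → D3 (p (i0 hn)) (p i) (p (i2 hn)) ≠ 0)
    (h2 : ∀ i : Fin n, 3 ≤ (i : ℕ) → D3 (p (i0 hn)) (p (i1 hn)) (p i) ≠ 0) :
    GenT hn p := by
  unfold GenT
  generalize p (i0 hn) = a at *
  generalize p (i1 hn) = b at *
  generalize p (i2 hn) = c at *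
  obtain ⟨D, hD⟩ : ∃ D, D = D3 a b c := ⟨_, rfl⟩
  rw [← hD] at h
  have hD' := hD
  rw [D3] at hD'
  refine ⟨Matrix.of ![![(b 1 - c 1) / D, (c 0 - b 0) / D, (b 0 * c 1 - c 0 * b 1) / D],
    ![(c 1 - a 1) / D, (a 0 - c 0) / D, (c 0 * a 1 - a 0 * c 1) / D],
    ![(a 1 - b 1) / D, (b 0 - a 0) / D, (a 0 * b 1 - b 0 * a 1) / D]], ?_, ?_, ?_, ?_, ?_⟩
  · rw [isUnit_iff_ne_zero, Matrix.det_fin_three]
    simp only [Matrix.of_apply, Matrix.cons_val', Matrix.cons_val_zero, Matrix.cons_val_one,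
      Matrix.cons_val]
    intro h3
    have h4 : (1 : ℂ) = 0 := by
      have h5 : D ^ 2 = 0 := by
        field_simp at h3
        rw [mul_zero] at h3
        rw [← h3, hD']
        ring
      exact absurd (pow_eq_zero_iff two_ne_zero |>.1 h5) h
    exact one_ne_zero h4
  · funext j
    fin_cases j <;> simp [Matrix.mulVec, dotProduct, Fin.sum_univ_three] <;> field_simp <;>
      rw [hD'] <;> ring
  · funext j
    fin_cases j <;> simp [Matrix.mulVec, dotProduct, Fin.sum_univ_three] <;> field_simp <;>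
      rw [hD'] <;> ring
  · funext j
    fin_cases j <;> simp [Matrix.mulVec, dotProduct, Fin.sum_univ_three] <;> field_simp <;>
      rw [hD'] <;> ring
  · intro i hi j
    have k0 := h0 i hi
    have k1 := h1 i hi
    have k2 := h2 i hi
    rw [D3] at k0 k1 k2
    fin_cases j
    · intro h3
      apply k0
      simp [Matrix.mulVec, dotProduct, Fin.sum_univ_three] at h3
      field_simp at h3
      linear_combination h3
    · intro h3
      apply k1
      simp [Matrix.mulVec, dotProduct, Fin.sum_univ_three] at h3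
      field_simp at h3
      linear_combination h3
    · intro h3
      apply k2
      simp [Matrix.mulVec, dotProduct, Fin.sum_univ_three] at h3
      field_simp at h3
      linear_combination h3

theorem vg_genT (hn : 3 ≤ n) : VeryGeneral n (GenT hn) := by
  have e01 : i0 hn ≠ i1 hn := by
    intro h
    simpa [i0, i1] using congrArg Fin.val h
  have e02 : i0 hn ≠ i2 hn := by
    intro h
    simpa [i0, i2] using congrArg Fin.val h
  have e12 : i1 hn ≠ i2 hn := by
    intro h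
    simpa [i1, i2] using congrArg Fin.val h
  have f0 : ∀ i : Fin n, 3 ≤ (i : ℕ) → i ≠ i0 hn := by
    intro i hi h
    rw [h] at hi
    simp [i0] at hi
  have f1 : ∀ i : Fin n, 3 ≤ (i : ℕ) → i ≠ i1 hn := by
    intro i hi h
    rw [h] at hi
    simp [i1] at hi
  have f2 : ∀ i : Fin n, 3 ≤ (i : ℕ) → i ≠ i2 hn := by
    intro i hi h
    rw [h] at hi
    simp [i2] at hi
  have hbase := vg_D3 (i0 hn) (i1 hn) (i2 hn) e01 e02 e12
  have : Nonempty (Fin n) := ⟨i0 hn⟩
  have hall : VeryGeneral n (fun p => ∀ i : Fin n, 3 ≤ (i : ℕ) →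
      D3 (p i) (p (i1 hn)) (p (i2 hn)) ≠ 0 ∧ D3 (p (i0 hn)) (p i) (p (i2 hn)) ≠ 0 ∧
      D3 (p (i0 hn)) (p (i1 hn)) (p i) ≠ 0) := by
    refine vg_countable fun i => ?_
    by_cases hi : 3 ≤ (i : ℕ)
    · refine vg_mono (vg_and (vg_D3 i (i1 hn) (i2 hn) (f1 i hi) (f2 i hi) e12)
        (vg_and (vg_D3 (i0 hn) i (i2 hn) (f0 i hi).symm e02 (f2 i hi))
          (vg_D3 (i0 hn) (i1 hn) i e01 (f0 i hi).symm (f1 i hi).symm))) ?_
      intro p hp _
      exact hp
    · refine vg_mono hbase ?_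
      intro p _ hi'
      exact absurd hi' hi
  refine vg_mono (vg_and hbase hall) ?_
  intro p hp
  exact genT_of_D3 hn p hp.1 (fun i hi => (hp.2 i hi).1) (fun i hi => (hp.2 i hi).2.1)
    (fun i hi => (hp.2 i hi).2.2)

theorem exists_matrix (w : Fin n → Fin 3 → ℂ) (hw : ∀ i, w i ≠ 0) :
    ∃ h : Matrix (Fin 3) (Fin 3) ℂ, IsUnit h.det ∧ ∀ i, h.mulVec (w i) 2 ≠ 0 := by
  have hP : ∀ i, Polynomial.C (w i 0) + Polynomial.C (w i 1) * Polynomial.X +
      Polynomial.C (w i 2) * Polynomial.X ^ 2 ≠ 0 := by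
    intro i h
    apply hw i
    have c0 := congrArg (fun P => Polynomial.coeff P 0) h
    have c1 := congrArg (fun P => Polynomial.coeff P 1) h
    have c2 := congrArg (fun P => Polynomial.coeff P 2) h
    simp [Polynomial.coeff_X, Polynomial.coeff_C] at c0 c1 c2
    funext j
    fin_cases j
    · exact c0
    · exact c1
    · exact c2
  have hprod : (∏ i, (Polynomial.C (w i 0) + Polynomial.C (w i 1) * Polynomial.X +
      Polynomial.C (w i 2) * Polynomial.X ^ 2)) ≠ 0 :=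
    Finset.prod_ne_zero_iff.2 fun i _ => hP i
  obtain ⟨t, ht⟩ : ∃ t : ℂ, Polynomial.eval t (∏ i, (Polynomial.C (w i 0) +
      Polynomial.C (w i 1) * Polynomial.X + Polynomial.C (w i 2) * Polynomial.X ^ 2)) ≠ 0 := by
    by_contra hcon
    push Not at hcon
    exact hprod (Polynomial.funext fun t => by rw [hcon t, Polynomial.eval_zero])
  rw [Polynomial.eval_prod, Finset.prod_ne_zero_iff] at ht
  refine ⟨Matrix.of ![![0, 1, 0], ![0, 0, 1], ![1, t, t ^ 2]], ?_, ?_⟩
  · rw [isUnit_iff_ne_zero, Matrix.det_fin_three]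
    simp
  · intro i
    have h1 := ht i (Finset.mem_univ i)
    simp only [Polynomial.eval_add, Polynomial.eval_mul, Polynomial.eval_C, Polynomial.eval_X,
      Polynomial.eval_pow] at h1
    intro h2
    apply h1
    simp [Matrix.mulVec, dotProduct, Fin.sum_univ_three] at h2
    linear_combination h2

end Pool.Agent.H92.CR
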