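import Mathlib
import Pool.Agent.H92.CR.Aff
import Pool.Agent.H92.CR.Quad
import Pool.Agent.H92.CR.StepA

/-!
# CR-5b: the Cremona step

`nefVG_cr`.  Proof.
1. By `vg_and`, `vg_genT`, `vg_exists` there is one `p` with `GenT hn p` and `NefAt p y` for all
`y ∈ Y`.
2. `w i = g.mulVec (v i)`, `v i = ![p i 0, p i 1, 1]`: `NefP w y` by `nefP_affine`, `nefP_linear`.
3. `nefP_quad`: `NefP w' (cr y)`, `w' i = sq (w i)` (`i ≥ 3`), `w' i = w i` (`i ≤ 2`); all
`w' i ≠ 0`.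
4. `exists_matrix`: `h` invertible with `(h.mulVec (w' i)) 2 ≠ 0` for all `i`; `nefP_linear`.
5. `P i = ![(h w' i) 0 / (h w' i) 2, (h w' i) 1 / (h w' i) 2]`:
`![P i 0, P i 1, 1] = ((h w' i) 2)⁻¹ • h w' i`; `nefP_smul`, `nefP_affine` give
`NefAt P (cr y)` for all `y ∈ Y`; apply `nefVG_of_point` with the set `{z | cr z ∈ Y}`
(`cr_cr`: for `z` in it take `y = cr z`).
-/

set_option autoImplicit false

namespace Pool.Agent.H92.CR

open Pool.Agent.H13 MvPolynomial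

variable {n : ℕ}

theorem nefVG_cr (hn : 3 ≤ n) {Y : Set (ℝ × (Fin n → ℝ))} (h : NefVG n Y) :
    NefVG n {y | cr hn y ∈ Y} := by
  obtain ⟨p, ⟨g, hg, g0, g1, g2, hgi⟩, hY⟩ := vg_exists (vg_and (vg_genT hn) h)
  obtain ⟨w, hw⟩ : ∃ w : Fin n → Fin 3 → ℂ, w = fun i => g.mulVec ![p i 0, p i 1, 1] := ⟨_, rfl⟩
  have hw0 : w (i0 hn) = ![1, 0, 0] := by rw [hw]; exact g0
  have hw1 : w (i1 hn) = ![0, 1, 0] := by rw [hw]; exact g1
  have hw2 : w (i2 hn) = ![0, 0, 1] := by rw [hw]; exact g2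
  have hwi : ∀ i : Fin n, 3 ≤ (i : ℕ) → ∀ j, w i j ≠ 0 := by rw [hw]; exact hgi
  obtain ⟨w', hw'⟩ : ∃ w' : Fin n → Fin 3 → ℂ, w' = fun i : Fin n =>
    if 3 ≤ (i : ℕ) then sq (w i) else w i := ⟨_, rfl⟩
  have hw'0 : ∀ i, w' i ≠ 0 := by
    intro i hi
    rw [hw'] at hi
    by_cases h3 : 3 ≤ (i : ℕ)
    · simp only [if_pos h3] at hi
      have h4 := congrFun hi 0
      exact mul_ne_zero (hwi i h3 1) (hwi i h3 2) h4
    · simp only [if_neg h3] at hi
      have h5 : i = i0 hn ∨ i = i1 hn ∨ i = i2 hn := by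
        have : (i : ℕ) = 0 ∨ (i : ℕ) = 1 ∨ (i : ℕ) = 2 := by omega
        rcases this with h | h | h
        · left; exact Fin.ext h
        · right; left; exact Fin.ext h
        · right; right; exact Fin.ext h
      rcases h5 with rfl | rfl | rfl
      · rw [hw0] at hi
        exact one_ne_zero (congrFun hi 0)
      · rw [hw1] at hi
        exact one_ne_zero (congrFun hi 1)
      · rw [hw2] at hi
        exact one_ne_zero (congrFun hi 2)
  obtain ⟨hh, hu, hne⟩ := exists_matrix w' hw'0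
  let P : Fin n → Fin 2 → ℂ := fun i =>
    ![hh.mulVec (w' i) 0 / hh.mulVec (w' i) 2, hh.mulVec (w' i) 1 / hh.mulVec (w' i) 2]
  have hP : (fun i => ![P i 0, P i 1, 1]) =
      fun i => (hh.mulVec (w' i) 2)⁻¹ • hh.mulVec (w' i) := by
    funext i j
    fin_cases j
    · show hh.mulVec (w' i) 0 / hh.mulVec (w' i) 2 = (hh.mulVec (w' i) 2)⁻¹ * hh.mulVec (w' i) 0
      rw [div_eq_inv_mul]
    · show hh.mulVec (w' i) 1 / hh.mulVec (w' i) 2 = (hh.mulVec (w' i) 2)⁻¹ * hh.mulVec (w' i) 1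
      rw [div_eq_inv_mul]
    · show (1 : ℂ) = (hh.mulVec (w' i) 2)⁻¹ * hh.mulVec (w' i) 2
      rw [inv_mul_cancel₀ (hne i)]
  refine nefVG_of_point P _ ?_
  intro y hy
  have h1 : NefAt p (cr hn y) := hY _ hy
  have h2 : NefP w (cr hn y) := by
    rw [hw]
    exact nefP_linear g hg _ _ ((nefP_affine p _).2 h1)
  have h3 : NefP w' (cr hn (cr hn y)) := by
    rw [hw']
    exact nefP_quad hn w hw0 hw1 hw2 hwi _ h2
  rw [cr_cr] at h3
  have h4 := nefP_linear hh hu w' y h3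
  have h5 := nefP_smul (fun i => (hh.mulVec (w' i) 2)⁻¹) (fun i => inv_ne_zero (hne i)) _ y h4
  rw [← nefP_affine, hP]
  exact h5

end Pool.Agent.H92.CR
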