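import Mathlib
import Pool.Agent.H92.CR.Step
import Pool.Agent.H92.CR.LatA

set_option autoImplicit false

/-!
# CR-6b: the odd classes of square `-1` and degree `1` against `K`

`good_cr`: `nefVG_cr` and `BB (cr v) y = BB v (cr y)` (`BB_cr`, `cr_cr`), `pos_cr`.
`good_perm`: `nefVG_perm` with `σ⁻¹` (`Equiv.sum_comp`).

`good_all` by strong induction on `A`.

By a permutation (`good_perm`, `Tuple.sort`) assume `B 0 ≥ B 1 ≥ ... ≥ B 9`.

Case 1: `A < B 0 + B 1 + B 2`.  The class `cr v` is `(A'; B')` with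
`A' = 2A - B0 - B1 - B2 < A`, `B' 0 = A - B1 - B2`, `B' 1 = A - B0 - B2`, `B' 2 = A - B0 - B1`;
parities: all odd; `A'^2 + 1 = ∑ B'^2`, `∑ B' = 3A' + 1` (`BB_cr`, `K_cr` or direct).
Positivity: `B 0 + B 1 < A` (`line_lt`), so `B' 2 > 0`, then also `B' 0, B' 1 ≥ B' 2 > 0` and
`A' = 2A - B0 - B1 - B2 > 0` (`A - B0 - B1 > 0` and `A - B2 > 0`).
So `Good (A'; B')` by induction and `Good v` by `good_cr` (`cr_cr`).

Case 2: `A ≥ B 0 + B 1 + B 2`.  Write `A = 2a + 3`, `B i = 2 b i + 1` (`A ≥ 3` as all `B i ≥ 1`).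
Then `∑ b i = 3a`, `∑ b i ^ 2 = a ^ 2`, `b0 + b1 + b2 ≤ a`, `b` antitone, so by `case_two`
`v = (3N; N^9, 1)`, `N = 2c + 1`: `hbase c`.
-/

namespace Pool.Agent.H92.CR

open Pool.Agent.H13 MvPolynomial

variable {n : ℕ}

/-- The classes of the positive cone orthogonal to `v` are nef for very general points -/
def Good (v : ℝ × (Fin n → ℝ)) : Prop := NefVG n {y | y ∈ Pos n ∧ BB v y = 0}

theorem good_perm (v : ℝ × (Fin n → ℝ)) (h : Good v) (σ : Equiv.Perm (Fin n)) :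
    Good (v.1, fun i => v.2 (σ i)) := by
  refine nefVG_mono (nefVG_perm h σ⁻¹) ?_
  rintro y ⟨⟨hy0, hy1⟩, hy2⟩
  refine ⟨⟨hy0, ?_⟩, ?_⟩
  · have h1 : ∑ i, (y.2 (σ⁻¹ i)) ^ 2 = ∑ i, y.2 i ^ 2 :=
      Equiv.sum_comp σ⁻¹ (fun i => y.2 i ^ 2)
    change ∑ i, (y.2 (σ⁻¹ i)) ^ 2 ≤ y.1 ^ 2
    rw [h1]
    exact hy1
  · have h1 : ∑ i, v.2 i * y.2 (σ⁻¹ i) = ∑ i, v.2 (σ i) * y.2 i := by
      rw [← Equiv.sum_comp σ (fun i => v.2 i * y.2 (σ⁻¹ i))]
      refine Finset.sum_congr rfl fun i _ => ?_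
      simp
    change v.1 * y.1 - ∑ i, v.2 i * y.2 (σ⁻¹ i) = 0
    rw [h1]
    exact hy2

theorem good_cr (hn : 3 ≤ n) (v : ℝ × (Fin n → ℝ)) (h : Good v) : Good (cr hn v) := by
  refine nefVG_mono (nefVG_cr hn h) ?_
  rintro y ⟨hy1, hy2⟩
  refine ⟨pos_cr hn y hy1, ?_⟩
  rw [← BB_cr hn v (cr hn y), cr_cr]
  exact hy2

/-- the hyperplanes of the reflection principle -/
def Base : Prop := ∀ c : ℕ, Good (n := 10)
  (3 * (2 * (c : ℝ) + 1), fun i => if (i : ℕ) < 9 then 2 * (c : ℝ) + 1 else 1)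

/-- every function on `Fin 10` is antitone after a permutation -/
theorem exists_perm_antitone (B : Fin 10 → ℕ) : ∃ σ : Equiv.Perm (Fin 10), Antitone (B ∘ σ) := by
  refine ⟨Fin.revPerm.trans (Tuple.sort B), ?_⟩
  intro i j hij
  have h := Tuple.monotone_sort B (Fin.rev_le_rev.mpr hij)
  simpa using h

theorem good_step (hbase : Base) (A : ℕ)
    (ih : ∀ A' < A, ∀ B : Fin 10 → ℕ, Odd A' → (∀ i, Odd (B i)) →
      A' ^ 2 + 1 = ∑ i, B i ^ 2 → ∑ i, B i = 3 * A' + 1 →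
      Good ((A' : ℝ), fun i => (B i : ℝ)))
    (B : Fin 10 → ℕ) (hB : Antitone B) (hA : Odd A) (hBo : ∀ i, Odd (B i))
    (h1 : A ^ 2 + 1 = ∑ i, B i ^ 2) (h2 : ∑ i, B i = 3 * A + 1) :
    Good ((A : ℝ), fun i => (B i : ℝ)) := by
  have hpos : ∀ i, 0 < B i := fun i => (hBo i).pos
  have hA0 : 0 < A := hA.pos
  have h1' : (A : ℤ) ^ 2 + 1 = ∑ i, (B i : ℤ) ^ 2 := by exact_mod_cast h1
  have h2' : ∑ i, (B i : ℤ) = 3 * (A : ℤ) + 1 := by exact_mod_cast h2
  have hline : (B 0 : ℤ) + (B 1 : ℤ) < A := by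
    refine line_lt (A : ℤ) (fun i => (B i : ℤ)) ?_ ?_ ?_ ?_ h1' h2'
    · exact_mod_cast hA
    · intro i
      exact_mod_cast hBo i
    · intro i
      exact_mod_cast hpos i
    · exact_mod_cast hA0
  have hline' : B 0 + B 1 < A := by exact_mod_cast hline
  have h01 : B 1 ≤ B 0 := hB (by decide)
  have h12 : B 2 ≤ B 1 := hB (by decide)
  have p0 := hpos 0
  have p1 := hpos 1
  have p2 := hpos 2
  obtain ⟨a, ha⟩ := hA
  choose b hb using hBo
  by_cases hc : A < B 0 + B 1 + B 2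
  · -- Case 1
    have hn : 3 ≤ 10 := by norm_num
    obtain ⟨A', hA'⟩ : ∃ A' : ℕ, A' + B 0 + B 1 + B 2 = 2 * A :=
      ⟨2 * A - B 0 - B 1 - B 2, by omega⟩
    obtain ⟨c0, hc0⟩ : ∃ c : ℕ, c + B 1 + B 2 = A := ⟨A - B 1 - B 2, by omega⟩
    obtain ⟨c1, hc1⟩ : ∃ c : ℕ, c + B 0 + B 2 = A := ⟨A - B 0 - B 2, by omega⟩
    obtain ⟨c2, hc2⟩ : ∃ c : ℕ, c + B 0 + B 1 = A := ⟨A - B 0 - B 1, by omega⟩
    have hb0 := hb 0
    have hb1 := hb 1
    have hb2 := hb 2
    let B' : Fin 10 → ℕ := fun i => if i = 0 then c0 else if i = 1 then c1 else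
      if i = 2 then c2 else B i
    have hlt : A' < A := by omega
    have hcr : cr hn ((A : ℝ), fun i => (B i : ℝ)) = ((A' : ℝ), fun i => (B' i : ℝ)) := by
      have r1 : (A' : ℝ) + B 0 + B 1 + B 2 = 2 * A := by exact_mod_cast hA'
      have r2 : (c0 : ℝ) + B 1 + B 2 = A := by exact_mod_cast hc0
      have r3 : (c1 : ℝ) + B 0 + B 2 = A := by exact_mod_cast hc1
      have r4 : (c2 : ℝ) + B 0 + B 1 = A := by exact_mod_cast hc2
      refine Prod.ext ?_ ?_
      · change 2 * (A : ℝ) - B 0 - B 1 - B 2 = A'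
        linarith
      · funext i
        change (if i = 0 then (A : ℝ) - B 1 - B 2 else
          if i = 1 then (A : ℝ) - B 0 - B 2 else
          if i = 2 then (A : ℝ) - B 0 - B 1 else (B i : ℝ)) = ((if i = 0 then c0 else
            if i = 1 then c1 else if i = 2 then c2 else B i : ℕ) : ℝ)
        split_ifs <;> linarith
    have hgood : Good ((A' : ℝ), fun i => (B' i : ℝ)) := by
      refine ih A' hlt B' ?_ ?_ ?_ ?_
      · rw [Nat.odd_iff]
        omega
      · intro i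
        change Odd (if i = 0 then c0 else if i = 1 then c1 else if i = 2 then c2 else B i)
        split_ifs
        · rw [Nat.odd_iff]; omega
        · rw [Nat.odd_iff]; omega
        · rw [Nat.odd_iff]; omega
        · exact ⟨b i, hb i⟩
      · have e1 : ∑ i, B' i ^ 2 = c0 ^ 2 + c1 ^ 2 + c2 ^ 2 + B 3 ^ 2 + B 4 ^ 2 + B 5 ^ 2 +
            B 6 ^ 2 + B 7 ^ 2 + B 8 ^ 2 + B 9 ^ 2 := by
          simp only [Fin.sum_univ_succ, Fin.sum_univ_zero]
          simp [B']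
          ring
        have e2 : ∑ i, B i ^ 2 = B 0 ^ 2 + B 1 ^ 2 + B 2 ^ 2 + B 3 ^ 2 + B 4 ^ 2 + B 5 ^ 2 +
            B 6 ^ 2 + B 7 ^ 2 + B 8 ^ 2 + B 9 ^ 2 := by
          simp only [Fin.sum_univ_succ, Fin.sum_univ_zero]
          simp
          ring
        rw [e1]
        rw [e2] at h1
        zify at h1 hA' hc0 hc1 hc2 ⊢
        have q0 : (c0 : ℤ) = A - B 1 - B 2 := by linarith
        have q1 : (c1 : ℤ) = A - B 0 - B 2 := by linarith
        have q2 : (c2 : ℤ) = A - B 0 - B 1 := by linarith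
        have q3 : (A' : ℤ) = 2 * A - B 0 - B 1 - B 2 := by linarith
        rw [q0, q1, q2, q3]
        linarith
      · have e1 : ∑ i, B' i = c0 + c1 + c2 + B 3 + B 4 + B 5 + B 6 + B 7 + B 8 + B 9 := by
          simp only [Fin.sum_univ_succ, Fin.sum_univ_zero]
          simp [B']
          ring
        have e2 : ∑ i, B i = B 0 + B 1 + B 2 + B 3 + B 4 + B 5 + B 6 + B 7 + B 8 + B 9 := by
          simp only [Fin.sum_univ_succ, Fin.sum_univ_zero]
          simp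
          ring
        rw [e1]
        rw [e2] at h2
        omega
    have := good_cr hn _ hgood
    rw [← hcr, cr_cr] at this
    exact this
  · -- Case 2
    push Not at hc
    have hb0 := hb 0
    have hb1 := hb 1
    have hb2 := hb 2
    obtain ⟨a', ha'⟩ : ∃ a' : ℕ, A = 2 * a' + 3 := ⟨a - 1, by omega⟩
    have hbZ : ∀ i, (B i : ℤ) = 2 * (b i : ℤ) + 1 := fun i => by exact_mod_cast hb i
    have hAZ : (A : ℤ) = 2 * (a' : ℤ) + 3 := by exact_mod_cast ha'
    have s1 : ∑ i, (b i : ℤ) = 3 * (a' : ℤ) := by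
      have : ∑ i, (2 * (b i : ℤ) + 1) = 3 * (2 * (a' : ℤ) + 3) + 1 := by
        rw [← hAZ, ← h2']
        exact Finset.sum_congr rfl fun i _ => (hbZ i).symm
      rw [Finset.sum_add_distrib, ← Finset.mul_sum] at this
      simp at this
      linarith
    have s2 : ∑ i, (b i : ℤ) ^ 2 = (a' : ℤ) ^ 2 := by
      have : ∑ i, (2 * (b i : ℤ) + 1) ^ 2 = (2 * (a' : ℤ) + 3) ^ 2 + 1 := by
        rw [← hAZ, h1']
        exact Finset.sum_congr rfl fun i _ => by rw [hbZ i]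
      have e : ∀ i, (2 * (b i : ℤ) + 1) ^ 2 = 4 * (b i : ℤ) ^ 2 + 4 * (b i : ℤ) + 1 := by
        intro i
        ring
      simp only [e] at this
      rw [Finset.sum_add_distrib, Finset.sum_add_distrib, ← Finset.mul_sum,
        ← Finset.mul_sum, s1] at this
      simp at this
      linarith
    have hanti : Antitone (fun i => (b i : ℤ)) := by
      intro i j hij
      have := hB hij
      rw [hb i, hb j] at this
      change (b j : ℤ) ≤ (b i : ℤ)
      omega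
    obtain ⟨c, hc0, hac, hbc⟩ := case_two (a' : ℤ) (fun i => (b i : ℤ)) hanti
      (by simp) s2 s1 (by omega)
    have hb' := hbase c.toNat
    have hcc : ((c.toNat : ℕ) : ℝ) = (c : ℝ) := by
      have : ((c.toNat : ℕ) : ℤ) = c := Int.toNat_of_nonneg hc0
      exact_mod_cast this
    have hv : ((3 * (2 * ((c.toNat : ℕ) : ℝ) + 1),
        fun i : Fin 10 => if (i : ℕ) < 9 then 2 * ((c.toNat : ℕ) : ℝ) + 1 else 1) :
        ℝ × (Fin 10 → ℝ)) = ((A : ℝ), fun i => (B i : ℝ)) := by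
      refine Prod.ext ?_ ?_
      · change 3 * (2 * ((c.toNat : ℕ) : ℝ) + 1) = (A : ℝ)
        have : (A : ℝ) = 2 * (a' : ℝ) + 3 := by exact_mod_cast ha'
        have h3 : (a' : ℝ) = 3 * (c : ℝ) := by exact_mod_cast hac
        rw [hcc, this, h3]
        ring
      · funext i
        change (if (i : ℕ) < 9 then 2 * ((c.toNat : ℕ) : ℝ) + 1 else 1) = (B i : ℝ)
        have h4 : (B i : ℝ) = 2 * (b i : ℝ) + 1 := by exact_mod_cast hb i
        have h5 := hbc i
        rw [hcc, h4]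
        by_cases hi : (i : ℕ) < 9
        · rw [if_pos hi] at h5 ⊢
          have : (b i : ℝ) = (c : ℝ) := by exact_mod_cast h5
          rw [this]
        · rw [if_neg hi] at h5 ⊢
          have : (b i : ℝ) = 0 := by exact_mod_cast h5
          rw [this]
          ring
    rw [hv] at hb'
    exact hb'

theorem good_all (hbase : Base) : ∀ (A : ℕ) (B : Fin 10 → ℕ), Odd A → (∀ i, Odd (B i)) →
    A ^ 2 + 1 = ∑ i, B i ^ 2 → ∑ i, B i = 3 * A + 1 →
    Good ((A : ℝ), fun i => (B i : ℝ)) := by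
  intro A
  induction A using Nat.strong_induction_on with
  | _ A ih =>
    intro B hA hB h1 h2
    obtain ⟨σ, hσ⟩ := exists_perm_antitone B
    have hg := good_step hbase A ih (B ∘ σ) hσ hA (fun i => hB (σ i))
      (by
        rw [h1]
        exact (Equiv.sum_comp σ (fun i => B i ^ 2)).symm)
      (by
        rw [← h2]
        exact Equiv.sum_comp σ B)
    have hg2 := good_perm _ hg σ⁻¹
    have e : (((A : ℝ), fun i => (((B ∘ σ) (σ⁻¹ i) : ℕ) : ℝ)) : ℝ × (Fin 10 → ℝ)) =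
        ((A : ℝ), fun i => (B i : ℝ)) := by
      refine Prod.ext rfl ?_
      funext i
      simp
    exact e ▸ hg2

end Pool.Agent.H92.CR
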