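import Mathlib
import Pool.Agent.H92.RP.FinalB
import Pool.Agent.H92.CR.Lattice

set_option autoImplicit false

/-!
# CR: the equivalences from nefness
-/

namespace Pool.Agent.H92.CR

open Pool.Agent.H13 MvPolynomial Pool.Agent.H92.RP

variable {n : ℕ}

theorem iffs (L : Submodule ℝ (ℝ × (Fin n → ℝ))) (h : ℝ × (Fin n → ℝ)) (hL : h ∈ L)
    (h1 : 0 < h.1) (hh : 0 < BB h h) (p : Fin n → Fin 2 → ℂ)
    (hnef : ∀ x ∈ L, x ∈ Pos n → NefAt p x) (y : ℝ × (Fin n → ℝ)) (hyL : y ∈ L) :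
    ((y ∈ moriCone p ↔ y ∈ expectedCone p) ∧
      (y ∈ moriCone p ↔ 0 ≤ y.1 ∧ ∑ i, y.2 i ^ 2 ≤ y.1 ^ 2) ∧
      (y ∈ moriCone p ↔ ∀ v ∈ moriCone p, 0 ≤ y.1 * v.1 - ∑ i, y.2 i * v.2 i)) := by
  have hsep : y ∉ Pos n → ∃ x ∈ L, x ∈ Pos n ∧ BB x y < 0 := fun h' =>
    separateL L h hL h1 hh y hyL h'
  have hnef : ∀ x ∈ L, x ∈ Pos n → ∀ v ∈ moriCone p, 0 ≤ BB x v :=
    fun x hx hxp => (nefAt_iff p x).1 (hnef x hx hxp)
  have h1 : y ∈ moriCone p → y ∈ Pos n := by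
    intro hy
    by_contra hneg
    obtain ⟨x, hxL, hx, hlt⟩ := hsep hneg
    have := hnef x hxL hx y hy
    linarith
  have h2 : y ∈ Pos n → y ∈ expectedCone p := fun hy =>
    subset_closure (Submodule.subset_span (Or.inr hy))
  have h3 : y ∈ expectedCone p → y ∈ moriCone p := fun hy => expected_subset_mori p hy
  have h4 : y ∈ Pos n → ∀ v ∈ moriCone p, 0 ≤ y.1 * v.1 - ∑ i, y.2 i * v.2 i :=
    fun hy v hv => hnef y hyL hy v hv
  have h5 : (∀ v ∈ moriCone p, 0 ≤ y.1 * v.1 - ∑ i, y.2 i * v.2 i) → y ∈ Pos n := by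
    intro hnef'
    by_contra hneg
    obtain ⟨x, hxL, hx, hlt⟩ := hsep hneg
    have h6 : 0 ≤ BB y x := hnef' x (pos_subset_mori p hx)
    rw [BB_comm] at h6
    linarith
  exact ⟨⟨fun hy => h2 (h1 hy), h3⟩, ⟨h1, fun hy => h3 (h2 hy)⟩,
    ⟨fun hy => h4 (h1 hy), fun hy => h3 (h2 (h5 hy))⟩⟩

/-- orthogonal complement -/
def orth (v : ℝ × (Fin n → ℝ)) : Submodule ℝ (ℝ × (Fin n → ℝ)) where
  carrier := {y | BB v y = 0}
  add_mem' := by
    intro x y hx hy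
    have hx' : BB v x = 0 := hx
    have hy' : BB v y = 0 := hy
    change BB v (x + y) = 0
    rw [BB_add, hx', hy', add_zero]
  zero_mem' := by
    simp [BB]
  smul_mem' := by
    intro c y hy
    have hy' : BB v y = 0 := hy
    change BB v (c • y) = 0
    rw [BB_smul, hy', mul_zero]

theorem mem_orth (v y : ℝ × (Fin n → ℝ)) : y ∈ orth v ↔ BB v y = 0 := Iff.rfl

theorem nefL' (M : ℕ) (hM : 1 ≤ M) (n : ℕ) (hn : 10 ≤ n) (S : Finset (Fin n))
    (hS : ∀ l ∈ S, 9 ≤ (l : ℕ)) :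
    NefVG n {y | y ∈ Pos n ∧ InL (by omega) M S y} :=
  vg_mono (nefL M hM n hn) fun p hp y hy =>
    (nefAt_iff p y).2 fun v hv => hp S hS y hy.2 hy.1 v hv

theorem base_holds : Base := by
  intro c
  refine nefVG_mono (nefL' (c + 1) (by omega) 10 le_rfl {9} ?_) ?_
  · intro l hl
    rw [Finset.mem_singleton] at hl
    rw [hl]
    decide
  · rintro y ⟨hy, hv⟩
    refine ⟨hy, fun i hi => ?_⟩
    have hi9 : i = 9 := by
      apply Fin.ext
      have := i.2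
      change (i : ℕ) = 9
      omega
    subst hi9
    simp only [BB] at hv
    rw [Fin.sum_univ_castSucc] at hv
    have e1 : ∀ j : Fin 9, (if ((Fin.castSucc j : Fin 10) : ℕ) < 9 then 2 * (c : ℝ) + 1 else 1) *
        y.2 (Fin.castSucc j) = (2 * (c : ℝ) + 1) * y.2 (Fin.castSucc j) := by
      intro j
      rw [if_pos]
      simp
    simp only [e1, ← Finset.mul_sum] at hv
    have e2 : ((Fin.last 9 : Fin 10) : ℕ) = 9 := rfl
    rw [e2, if_neg (lt_irrefl 9)] at hv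
    have e3 : (Fin.last 9 : Fin 10) = 9 := rfl
    rw [e3] at hv
    simp only [wt, kk, Finset.mem_singleton, if_true]
    rw [if_pos (by decide)]
    have e4 : ∑ i : Fin 9, y.2 (Fin.castLE (by omega : 9 ≤ 10) i) =
      ∑ i : Fin 9, y.2 (Fin.castSucc i) := rfl
    rw [e4]
    push_cast
    linear_combination -hv

end Pool.Agent.H92.CR
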