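import Mathlib
import Pool.Agent.H92.CR.Iffs

set_option autoImplicit false

/-!
# CR: the theorem for ten points
-/

namespace Pool.Agent.H92.CR

open Pool.Agent.H13 MvPolynomial Pool.Agent.H92.RP

/-- strict Cauchy-Schwarz: two isotropic-or-positive forward classes with product zero are
proportional -/
theorem prop_of_BB_zero {n : ℕ} (e y : ℝ × (Fin n → ℝ)) (he : e ∈ Pos n) (he0 : 0 < e.1)
    (hy : y ∈ Pos n) (h : BB e y = 0) : ∃ c : ℝ, y = c • e := by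
  refine ⟨y.1 / e.1, ?_⟩
  have h1 : e.1 * y.1 = ∑ i, e.2 i * y.2 i := by
    have := h
    unfold BB at this
    linarith
  have h2 : ∑ i, (e.1 * y.2 i - y.1 * e.2 i) ^ 2 ≤ 0 := by
    have e1 : ∑ i, (e.1 * y.2 i - y.1 * e.2 i) ^ 2 =
        e.1 ^ 2 * ∑ i, y.2 i ^ 2 - 2 * (e.1 * y.1) * ∑ i, e.2 i * y.2 i +
          y.1 ^ 2 * ∑ i, e.2 i ^ 2 := by
      rw [Finset.mul_sum, Finset.mul_sum, Finset.mul_sum, ← Finset.sum_sub_distrib,
        ← Finset.sum_add_distrib]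
      exact Finset.sum_congr rfl fun i _ => by ring
    rw [e1, ← h1]
    have a1 := mul_le_mul_of_nonneg_left hy.2 (sq_nonneg e.1)
    have a2 := mul_le_mul_of_nonneg_left he.2 (sq_nonneg y.1)
    nlinarith
  have h3 : ∀ i, e.1 * y.2 i - y.1 * e.2 i = 0 := by
    intro i
    have h4 := (Finset.sum_eq_zero_iff_of_nonneg
      (fun i (_ : i ∈ Finset.univ) => sq_nonneg (e.1 * y.2 i - y.1 * e.2 i))).1
      (le_antisymm h2 (Finset.sum_nonneg fun i _ => sq_nonneg _)) i (Finset.mem_univ i)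
    exact pow_eq_zero_iff (two_ne_zero) |>.1 h4
  apply Prod.ext
  · simp only [Prod.smul_fst, smul_eq_mul]
    field_simp
  · funext i
    simp only [Prod.smul_snd, Pi.smul_apply, smul_eq_mul]
    have := h3 i
    field_simp
    linarith

theorem BB_nonneg {n : ℕ} (e y : ℝ × (Fin n → ℝ)) (he : e ∈ Pos n) (hy : y ∈ Pos n) :
    0 ≤ BB e y := by
  have h3 := Finset.sum_mul_sq_le_sq_mul_sq Finset.univ e.2 y.2
  have h4 : (∑ i, e.2 i * y.2 i) ^ 2 ≤ (e.1 * y.1) ^ 2 := by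
    calc (∑ i, e.2 i * y.2 i) ^ 2 ≤ (∑ i, e.2 i ^ 2) * ∑ i, y.2 i ^ 2 := h3
      _ ≤ e.1 ^ 2 * y.1 ^ 2 := mul_le_mul he.2 hy.2
          (Finset.sum_nonneg fun i _ => sq_nonneg _) (sq_nonneg _)
      _ = (e.1 * y.1) ^ 2 := by ring
  have h5 := abs_le_of_sq_le_sq' h4 (mul_nonneg he.1 hy.1)
  unfold BB
  linarith [h5.2]

theorem thm_hyper :
    VeryGeneral 10 (fun p => ∀ (A : ℕ) (B : Fin 10 → ℕ), Odd A → (∀ i, Odd (B i)) →
      A ^ 2 + 1 = ∑ i, B i ^ 2 → ∑ i, B i = 3 * A + 1 →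
      ∀ y : ℝ × (Fin 10 → ℝ), A * y.1 = ∑ i, B i * y.2 i →
      ((y ∈ moriCone p ↔ y ∈ expectedCone p) ∧
        (y ∈ moriCone p ↔ 0 ≤ y.1 ∧ ∑ i, y.2 i ^ 2 ≤ y.1 ^ 2) ∧
        (y ∈ moriCone p ↔ ∀ v ∈ moriCone p, 0 ≤ y.1 * v.1 - ∑ i, y.2 i * v.2 i) ∧
        (3 < A → y ∈ moriCone p →
          0 < -3 * y.1 + ∑ i, y.2 i ∨ ∃ c : ℝ, y = c • ((A : ℝ) - 3, fun i => (B i : ℝ) - 1)))) := by
  have hall : VeryGeneral 10 (fun p => ∀ AB : ℕ × (Fin 10 → ℕ), Odd AB.1 → (∀ i, Odd (AB.2 i)) →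
      AB.1 ^ 2 + 1 = ∑ i, AB.2 i ^ 2 → ∑ i, AB.2 i = 3 * AB.1 + 1 →
      ∀ y ∈ {y : ℝ × (Fin 10 → ℝ) | y ∈ Pos 10 ∧
        BB (((AB.1 : ℕ) : ℝ), fun i => ((AB.2 i : ℕ) : ℝ)) y = 0}, NefAt p y) := by
    apply vg_countable
    rintro ⟨A, B⟩
    by_cases hc : Odd A ∧ (∀ i, Odd (B i)) ∧ A ^ 2 + 1 = ∑ i, B i ^ 2 ∧ ∑ i, B i = 3 * A + 1
    · exact vg_mono (good_all base_holds A B hc.1 hc.2.1 hc.2.2.1 hc.2.2.2)
        fun p hp _ _ _ _ => hp
    · refine ⟨fun _ => 1, fun _ => one_ne_zero, fun p _ h1 h2 h3 h4 => ?_⟩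
      exact absurd ⟨h1, h2, h3, h4⟩ hc
  refine vg_mono hall fun p hp A B hA hB h1 h2 y hy => ?_
  set v : ℝ × (Fin 10 → ℝ) := (((A : ℕ) : ℝ), fun i => ((B i : ℕ) : ℝ)) with hv
  have hnef : ∀ x ∈ orth v, x ∈ Pos 10 → NefAt p x := fun x hx hxp =>
    hp (A, B) hA hB h1 h2 x ⟨hxp, hx⟩
  have hyL : y ∈ orth v := by
    rw [mem_orth]
    simp only [BB, hv]
    linarith
  have hAB : (A : ℝ) ^ 2 + 1 = ∑ i, (B i : ℝ) ^ 2 := by exact_mod_cast h1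
  have hKs : ∑ i, (B i : ℝ) = 3 * A + 1 := by exact_mod_cast h2
  have hvv : BB v v = -1 := by
    have : ∑ i, (B i : ℝ) * (B i : ℝ) = ∑ i, (B i : ℝ) ^ 2 :=
      Finset.sum_congr rfl fun i _ => by ring
    simp only [BB, hv]
    rw [this, ← hAB]
    ring
  -- a class of positive square orthogonal to `v`
  set h : ℝ × (Fin 10 → ℝ) := (1, 0) + (A : ℝ) • v with hh
  have hHv : BB ((1, 0) : ℝ × (Fin 10 → ℝ)) v = A := by simp [BB, hv]
  have hHH : BB ((1, 0) : ℝ × (Fin 10 → ℝ)) (1, 0) = 1 := by simp [BB]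
  have hvh : BB v h = 0 := by
    rw [hh, BB_add, BB_smul, hvv, BB_comm, hHv]
    ring
  have hhh : BB h h = 1 + (A : ℝ) ^ 2 := by
    have e1 : BB h h = BB h (1, 0) + A * BB h v := by
      conv_lhs => rw [hh, BB_add, BB_smul]
    rw [e1, BB_comm h v, hvh, BB_comm, hh, BB_add, BB_smul, hHH, hHv]
    ring
  have hh1 : 0 < h.1 := by
    rw [hh]
    simp only [Prod.fst_add, Prod.smul_fst, smul_eq_mul, hv]
    positivity
  have I := iffs (orth v) h hvh hh1 (by rw [hhh]; positivity) p hnef y hyL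
  refine ⟨I.1, I.2.1, I.2.2, fun hA3 hyM => ?_⟩
  have hyP : y ∈ Pos 10 := I.2.1.1 hyM
  set e : ℝ × (Fin 10 → ℝ) := ((A : ℝ) - 3, fun i => (B i : ℝ) - 1) with he
  have hA3' : (3 : ℝ) < A := by exact_mod_cast hA3
  have heP : e ∈ Pos 10 := by
    refine ⟨?_, ?_⟩
    · simp only [he]; linarith
    · simp only [he]
      have e1 : ∑ i, ((B i : ℝ) - 1) ^ 2 = ∑ i, (B i : ℝ) ^ 2 - 2 * ∑ i, (B i : ℝ) + 10 := by
        rw [Finset.mul_sum, ← Finset.sum_sub_distrib]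
        have : (10 : ℝ) = ∑ i : Fin 10, 1 := by simp
        rw [this, ← Finset.sum_add_distrib]
        exact Finset.sum_congr rfl fun i _ => by ring
      rw [e1, ← hAB, hKs]
      apply le_of_eq
      ring
  have hey : BB e y = -3 * y.1 + ∑ i, y.2 i := by
    simp only [he, BB]
    have e1 : ∑ i, ((B i : ℝ) - 1) * y.2 i = ∑ i, (B i : ℝ) * y.2 i - ∑ i, y.2 i := by
      rw [← Finset.sum_sub_distrib]
      exact Finset.sum_congr rfl fun i _ => by ring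
    rw [e1]
    linarith
  have hnn := BB_nonneg e y heP hyP
  rcases hnn.lt_or_eq with hlt | heq
  · left
    rw [← hey]
    exact hlt
  · right
    exact prop_of_BB_zero e y heP (by simp only [he]; linarith) hyP heq.symm

end Pool.Agent.H92.CR
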