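import Mathlib
import Pool.Agent.H13.Defs

set_option autoImplicit false

/-!
# Definitions for the statement on ten-dimensional subspaces
-/

namespace Pool.Agent.H92.CR

/-- The standard quadratic transformation based at the first three points, acting on the class
`y = d H - ∑ m i E i`, written `(d, m)`:
`(d; m₁, m₂, m₃, m₄, …) ↦ (2d - m₁ - m₂ - m₃; d - m₂ - m₃, d - m₁ - m₃, d - m₁ - m₂, m₄, …)`. -/
noncomputable def quadratic {n : ℕ} (hn : 3 ≤ n) (y : ℝ × (Fin n → ℝ)) : ℝ × (Fin n → ℝ) :=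
  (2 * y.1 - y.2 ⟨0, by omega⟩ - y.2 ⟨1, by omega⟩ - y.2 ⟨2, by omega⟩, fun i =>
    if i = ⟨0, by omega⟩ then y.1 - y.2 ⟨1, by omega⟩ - y.2 ⟨2, by omega⟩ else
    if i = ⟨1, by omega⟩ then y.1 - y.2 ⟨0, by omega⟩ - y.2 ⟨2, by omega⟩ else
    if i = ⟨2, by omega⟩ then y.1 - y.2 ⟨0, by omega⟩ - y.2 ⟨1, by omega⟩ else y.2 i)

/-- The action of a word in the quadratic transformation (`none`) and in the permutations of the
points: these words give exactly the elements of the Weyl (Cremona) group. -/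
noncomputable def word {n : ℕ} (hn : 3 ≤ n) : List (Option (Equiv.Perm (Fin n))) →
    (ℝ × (Fin n → ℝ)) → (ℝ × (Fin n → ℝ))
  | [], y => y
  | none :: l, y => word hn l (quadratic hn y)
  | some σ :: l, y => word hn l (y.1, fun i => y.2 (σ i))

/-- The intersection number `κ(y) = 3 d - m₁ - … - m₉` of `y = d H - ∑ m i E i` with the cubic
through the first nine points. -/
noncomputable def kappa {n : ℕ} (hn : 9 ≤ n) (y : ℝ × (Fin n → ℝ)) : ℝ :=
  3 * y.1 - ∑ i : Fin 9, y.2 (Fin.castLE hn i)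

/-- The ten-dimensional linear space `L_{M,S}` for a set `S` of points, none of them among the
first nine: `m₁₀ = κ(y)`, or `(2M - 1) κ(y)` if the tenth point is in `S`; and for `l ≥ 11`
`m_l = 0`, or `2M κ(y)` if the `l`-th point is in `S`.  (The `l`-th point has the index `l - 1`.) -/
def InSpace {n : ℕ} (hn : 9 ≤ n) (M : ℕ) (S : Finset (Fin n)) (y : ℝ × (Fin n → ℝ)) : Prop :=
  ∀ i : Fin n,
    ((i : ℕ) = 9 → y.2 i = (if i ∈ S then 2 * (M : ℝ) - 1 else 1) * kappa hn y) ∧
    (10 ≤ (i : ℕ) → y.2 i = (if i ∈ S then 2 * (M : ℝ) else 0) * kappa hn y)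

end Pool.Agent.H92.CR
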