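import Mathlib
import Pool.Agent.H92.CR.Hyper

set_option autoImplicit false

/-!
# CR: ten-dimensional subspaces and the Weyl group
-/

namespace Pool.Agent.H92.CR

open Pool.Agent.H13 MvPolynomial Pool.Agent.H92.RP

variable {n : ℕ}

/-- permutation of the coordinates -/
def pm (σ : Equiv.Perm (Fin n)) (y : ℝ × (Fin n → ℝ)) : ℝ × (Fin n → ℝ) :=
  (y.1, fun i => y.2 (σ i))

/-- compositions of the quadratic transformation (`none`) and of permutations -/
noncomputable def act (hn : 3 ≤ n) : List (Option (Equiv.Perm (Fin n))) →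
    (ℝ × (Fin n → ℝ)) → (ℝ × (Fin n → ℝ))
  | [], y => y
  | none :: l, y => act hn l (cr hn y)
  | some σ :: l, y => act hn l (pm σ y)

theorem pm_add (σ : Equiv.Perm (Fin n)) (x y : ℝ × (Fin n → ℝ)) :
    pm σ (x + y) = pm σ x + pm σ y := rfl

theorem pm_smul (σ : Equiv.Perm (Fin n)) (c : ℝ) (y : ℝ × (Fin n → ℝ)) :
    pm σ (c • y) = c • pm σ y := rfl

theorem cr_add (hn : 3 ≤ n) (x y : ℝ × (Fin n → ℝ)) :
    cr hn (x + y) = cr hn x + cr hn y := by
  apply Prod.ext
  · simp only [cr, Prod.fst_add, Prod.snd_add, Pi.add_apply]; ring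
  · funext i
    simp only [cr, Prod.fst_add, Prod.snd_add, Pi.add_apply]
    split_ifs <;> ring

theorem cr_smul (hn : 3 ≤ n) (c : ℝ) (y : ℝ × (Fin n → ℝ)) :
    cr hn (c • y) = c • cr hn y := by
  apply Prod.ext
  · simp only [cr, Prod.smul_fst, Prod.smul_snd, Pi.smul_apply, smul_eq_mul]; ring
  · funext i
    simp only [cr, Prod.smul_fst, Prod.smul_snd, Pi.smul_apply, smul_eq_mul]
    split_ifs <;> ring

theorem act_add (hn : 3 ≤ n) (l : List (Option (Equiv.Perm (Fin n)))) (x y : ℝ × (Fin n → ℝ)) :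
    act hn l (x + y) = act hn l x + act hn l y := by
  induction l generalizing x y with
  | nil => rfl
  | cons a l ih =>
    cases a with
    | none => simp only [act, cr_add, ih]
    | some σ => simp only [act, pm_add, ih]

theorem act_smul (hn : 3 ≤ n) (l : List (Option (Equiv.Perm (Fin n)))) (c : ℝ)
    (y : ℝ × (Fin n → ℝ)) : act hn l (c • y) = c • act hn l y := by
  induction l generalizing y with
  | nil => rfl
  | cons a l ih =>
    cases a with
    | none => simp only [act, cr_smul, ih]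
    | some σ => simp only [act, pm_smul, ih]

theorem BB_pm (σ : Equiv.Perm (Fin n)) (x y : ℝ × (Fin n → ℝ)) :
    BB (pm σ x) (pm σ y) = BB x y := by
  simp only [BB, pm]
  rw [Equiv.sum_comp σ (fun i => x.2 i * y.2 i)]

theorem BB_act (hn : 3 ≤ n) (l : List (Option (Equiv.Perm (Fin n)))) (x y : ℝ × (Fin n → ℝ)) :
    BB (act hn l x) (act hn l y) = BB x y := by
  induction l generalizing x y with
  | nil => rfl
  | cons a l ih =>
    cases a with
    | none => simp only [act, ih, BB_cr]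
    | some σ => simp only [act, ih, BB_pm]

theorem K_act (hn : 3 ≤ n) (l : List (Option (Equiv.Perm (Fin n)))) (y : ℝ × (Fin n → ℝ)) :
    -3 * (act hn l y).1 + ∑ i, (act hn l y).2 i = -3 * y.1 + ∑ i, y.2 i := by
  induction l generalizing y with
  | nil => rfl
  | cons a l ih =>
    cases a with
    | none => simp only [act, ih, K_cr]
    | some σ =>
      simp only [act, ih]
      simp only [pm]
      rw [Equiv.sum_comp σ (fun i => y.2 i)]

theorem pos_pm (σ : Equiv.Perm (Fin n)) (y : ℝ × (Fin n → ℝ)) :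
    pm σ y ∈ Pos n ↔ y ∈ Pos n := by
  simp only [Pos, pm, Set.mem_setOf_eq]
  rw [Equiv.sum_comp σ (fun i => y.2 i ^ 2)]

theorem pos_act (hn : 3 ≤ n) (l : List (Option (Equiv.Perm (Fin n)))) (y : ℝ × (Fin n → ℝ)) :
    act hn l y ∈ Pos n ↔ y ∈ Pos n := by
  induction l generalizing y with
  | nil => exact Iff.rfl
  | cons a l ih =>
    cases a with
    | none =>
      simp only [act, ih]
      refine ⟨fun h => ?_, pos_cr hn y⟩
      have := pos_cr hn _ h
      rwa [cr_cr] at this
    | some σ => simp only [act, ih, pos_pm]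

theorem act_surj (hn : 3 ≤ n) (l : List (Option (Equiv.Perm (Fin n)))) (z : ℝ × (Fin n → ℝ)) :
    ∃ y, act hn l y = z := by
  induction l generalizing z with
  | nil => exact ⟨z, rfl⟩
  | cons a l ih =>
    obtain ⟨y, hy⟩ := ih z
    cases a with
    | none => exact ⟨cr hn y, by simp only [act, cr_cr, hy]⟩
    | some σ =>
      refine ⟨pm σ.symm y, ?_⟩
      have : pm σ (pm σ.symm y) = y := by
        apply Prod.ext
        · rfl
        · funext i
          simp [pm]
      simp only [act, this, hy]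

theorem nefVG_act (hn : 3 ≤ n) (l : List (Option (Equiv.Perm (Fin n))))
    {Y : Set (ℝ × (Fin n → ℝ))} (h : NefVG n Y) : NefVG n {y | act hn l y ∈ Y} := by
  induction l with
  | nil => exact h
  | cons a l ih =>
    cases a with
    | none => exact nefVG_cr hn ih
    | some σ => exact nefVG_perm ih σ

/-- the linear subspace -/
def LA (hn : 9 ≤ n) (M : ℕ) (S : Finset (Fin n)) (l : List (Option (Equiv.Perm (Fin n)))) :
    Submodule ℝ (ℝ × (Fin n → ℝ)) where
  carrier := {y | InL hn M S (act (by omega) l y)}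
  add_mem' := by
    intro x y hx hy
    have := (LL hn M S).add_mem hx hy
    change InL hn M S (act _ l (x + y))
    rw [act_add]
    exact this
  zero_mem' := by
    have h0 : act (by omega : 3 ≤ n) l (0 : ℝ × (Fin n → ℝ)) = 0 := by
      have := act_smul (by omega : 3 ≤ n) l 0 0
      rwa [zero_smul, zero_smul] at this
    change InL hn M S (act _ l 0)
    rw [h0]
    exact (LL hn M S).zero_mem
  smul_mem' := by
    intro c y hy
    have := (LL hn M S).smul_mem c hy
    change InL hn M S (act _ l (c • y))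
    rw [act_smul]
    exact this

theorem thm_weyl (n : ℕ) (hn : 10 ≤ n) :
    VeryGeneral n (fun p => ∀ (M : ℕ) (S : Finset (Fin n))
      (l : List (Option (Equiv.Perm (Fin n)))) (y : ℝ × (Fin n → ℝ)),
      1 ≤ M → (∀ i ∈ S, 9 ≤ (i : ℕ)) → InL (by omega) M S (act (by omega) l y) →
      ((y ∈ moriCone p ↔ y ∈ expectedCone p) ∧
        (y ∈ moriCone p ↔ 0 ≤ y.1 ∧ ∑ i, y.2 i ^ 2 ≤ y.1 ^ 2) ∧
        (y ∈ moriCone p ↔ ∀ v ∈ moriCone p, 0 ≤ y.1 * v.1 - ∑ i, y.2 i * v.2 i) ∧
        -3 * y.1 + ∑ i, y.2 i =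
          2 * (M * S.card - (if (⟨9, by omega⟩ : Fin n) ∈ S then 1 else 0)) *
            kk (by omega) (act (by omega) l y))) := by
  have hn9 : 9 ≤ n := by omega
  have hn3 : 3 ≤ n := by omega
  have hall : VeryGeneral n (fun p => ∀ x : ℕ × Finset (Fin n) ×
      List (Option (Equiv.Perm (Fin n))), 1 ≤ x.1 → (∀ i ∈ x.2.1, 9 ≤ (i : ℕ)) →
      ∀ y ∈ {y : ℝ × (Fin n → ℝ) | act hn3 x.2.2 y ∈
        {y' : ℝ × (Fin n → ℝ) | y' ∈ Pos n ∧ InL hn9 x.1 x.2.1 y'}}, NefAt p y) := by
    apply vg_countable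
    rintro ⟨M, S, l⟩
    by_cases hc : 1 ≤ M ∧ ∀ i ∈ S, 9 ≤ (i : ℕ)
    · exact vg_mono (nefVG_act hn3 l (nefL' M hc.1 n hn S hc.2)) fun p hp _ _ => hp
    · exact ⟨fun _ => 1, fun _ => one_ne_zero, fun p _ h1 h2 => absurd ⟨h1, h2⟩ hc⟩
  refine vg_mono hall fun p hp M S l y hM hS hy => ?_
  have hnef : ∀ x ∈ LA hn9 M S l, x ∈ Pos n → NefAt p x := fun x hx hxp =>
    hp (M, S, l) hM hS x ⟨(pos_act hn3 l x).2 hxp, hx⟩
  obtain ⟨h, hh⟩ := act_surj hn3 l (big M S)
  have hhL : h ∈ LA hn9 M S l := by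
    change InL hn9 M S (act hn3 l h)
    rw [hh]
    exact big_InL hn9 M S
  have hBB : BB h h = 10 := by
    rw [← BB_act hn3 l, hh]
    exact big_sq hn M S hS
  have hPos : h ∈ Pos n := by
    rw [← pos_act hn3 l, hh]
    refine ⟨(big_pos M hM S).le, ?_⟩
    have := big_sq hn M S hS
    simp only [BB] at this
    have e : ∑ i, (big M S : ℝ × (Fin n → ℝ)).2 i ^ 2 =
        ∑ i, (big M S : ℝ × (Fin n → ℝ)).2 i * (big M S : ℝ × (Fin n → ℝ)).2 i :=
      Finset.sum_congr rfl fun i _ => by ring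
    rw [e]
    nlinarith
  have h1 : 0 < h.1 := by
    rcases hPos.1.lt_or_eq with h' | h'
    · exact h'
    · exfalso
      have h2 : BB h h ≤ 0 := by
        simp only [BB]
        rw [← h']
        have : 0 ≤ ∑ i, h.2 i * h.2 i := Finset.sum_nonneg fun i _ => mul_self_nonneg _
        linarith
      linarith
  have I := iffs (LA hn9 M S l) h hhL h1 (by rw [hBB]; norm_num) p hnef y hy
  refine ⟨I.1, I.2.1, I.2.2, ?_⟩
  rw [← K_act hn3 l y]
  exact K_InL hn M S hS _ hy

end Pool.Agent.H92.CR
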