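import Mathlib
import Pool.Agent.H92.CR.Weyl
import Pool.Agent.H92.CR.StmtW

set_option autoImplicit false

namespace Pool.Agent.H92.CR

open Pool.Agent.H13 Pool.Agent.H92.RP

variable {n : ℕ}

theorem quadratic_eq (hn : 3 ≤ n) : (quadratic hn : _ → ℝ × (Fin n → ℝ)) = cr hn := rfl

theorem word_eq (hn : 3 ≤ n) (l : List (Option (Equiv.Perm (Fin n)))) (y : ℝ × (Fin n → ℝ)) :
    word hn l y = act hn l y := by
  induction l generalizing y with
  | nil => rfl
  | cons a l ih =>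
    cases a with
    | none => simp only [act, word, ih, quadratic_eq]
    | some σ => simp only [act, word, ih, pm]

theorem kappa_eq (hn : 9 ≤ n) (y : ℝ × (Fin n → ℝ)) : kappa hn y = kk hn y := rfl

theorem inSpace_iff (hn : 9 ≤ n) (M : ℕ) (S : Finset (Fin n)) (y : ℝ × (Fin n → ℝ)) :
    InSpace hn M S y ↔ InL hn M S y := by
  constructor
  · intro h i hi
    rcases (Nat.lt_or_ge (i : ℕ) 10) with h10 | h10
    · have h9 : (i : ℕ) = 9 := by omega
      rw [(h i).1 h9, kappa_eq]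
      unfold wt
      rw [if_pos h9]
    · have h9 : ¬ (i : ℕ) = 9 := by omega
      rw [(h i).2 h10, kappa_eq]
      unfold wt
      rw [if_neg h9]
  · intro h i
    refine ⟨fun h9 => ?_, fun h10 => ?_⟩
    · rw [h i (by omega), kappa_eq]
      unfold wt
      rw [if_pos h9]
    · have h9 : ¬ (i : ℕ) = 9 := by omega
      rw [h i (by omega), kappa_eq]
      unfold wt
      rw [if_neg h9]

theorem kappa_pos (hn : 9 ≤ n) (z : ℝ × (Fin n → ℝ)) (hz : z ∈ Pos n) :
    0 < kappa hn z ∨ ∃ c : ℝ, z = c • ((3 : ℝ), fun i : Fin n => if (i : ℕ) < 9 then (1 : ℝ) else 0) := by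
  set e : ℝ × (Fin n → ℝ) := ((3 : ℝ), fun i : Fin n => if (i : ℕ) < 9 then (1 : ℝ) else 0) with he
  have h9 : ∀ g : Fin n → ℝ, ∑ i : Fin n, (if (i : ℕ) < 9 then (1 : ℝ) else 0) * g i =
      ∑ i : Fin 9, g (Fin.castLE hn i) := by
    intro g
    rw [sum_split hn]
    have e1 : (∑ i : Fin n, if 9 ≤ (i : ℕ) then (if (i : ℕ) < 9 then (1 : ℝ) else 0) * g i
        else 0) = 0 := by
      refine Finset.sum_eq_zero fun i _ => ?_
      by_cases h : 9 ≤ (i : ℕ)
      · rw [if_pos h, if_neg (by omega), zero_mul]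
      · rw [if_neg h]
    rw [e1, add_zero]
    refine Finset.sum_congr rfl fun i _ => ?_
    rw [if_pos, one_mul]
    simp
  have heP : e ∈ Pos n := by
    refine ⟨by simp only [he]; norm_num, ?_⟩
    have e1 : ∑ i, e.2 i ^ 2 = ∑ i : Fin n, (if (i : ℕ) < 9 then (1 : ℝ) else 0) * 1 := by
      refine Finset.sum_congr rfl fun i _ => ?_
      simp only [he]
      split_ifs <;> simp
    rw [e1, h9 (fun _ => 1)]
    simp only [he, Finset.sum_const, Finset.card_univ, Fintype.card_fin]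
    norm_num
  have hez : BB e z = kappa hn z := by
    simp only [BB, he, kappa]
    rw [h9]
  rcases (BB_nonneg e z heP hz).lt_or_eq with h | h
  · left
    rwa [hez] at h
  · right
    exact prop_of_BB_zero e z heP (by simp only [he]; norm_num) hz h.symm

theorem thm_weylW (n : ℕ) (hn : 11 ≤ n) :
    VeryGeneral n (fun p => ∀ (M : ℕ) (S : Finset (Fin n))
      (w : List (Option (Equiv.Perm (Fin n)))) (y : ℝ × (Fin n → ℝ)),
      1 ≤ M → (∀ i ∈ S, 9 ≤ (i : ℕ)) →
      InSpace (by omega) M S (word (by omega) w y) →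
      ((y ∈ moriCone p ↔ y ∈ expectedCone p) ∧
        (y ∈ moriCone p ↔ 0 ≤ y.1 ∧ ∑ i, y.2 i ^ 2 ≤ y.1 ^ 2) ∧
        (y ∈ moriCone p ↔ ∀ v ∈ moriCone p, 0 ≤ y.1 * v.1 - ∑ i, y.2 i * v.2 i) ∧
        -3 * y.1 + ∑ i, y.2 i =
          2 * (M * S.card - (if (⟨9, by omega⟩ : Fin n) ∈ S then 1 else 0)) *
            kappa (by omega) (word (by omega) w y) ∧
        (y ∈ moriCone p → 0 < kappa (by omega) (word (by omega) w y) ∨
          ∃ c : ℝ, word (by omega) w y = c • ((3 : ℝ), fun i : Fin n =>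
            if (i : ℕ) < 9 then (1 : ℝ) else 0)))) := by
  refine vg_mono (thm_weyl n (by omega)) fun p hp M S w y hM hS hy => ?_
  rw [inSpace_iff, word_eq] at hy
  rw [word_eq, kappa_eq]
  obtain ⟨h1, h2, h3, h4⟩ := hp M S w y hM hS hy
  refine ⟨h1, h2, h3, h4, fun h => ?_⟩
  exact kappa_pos (by omega) _ ((pos_act (by omega) w y).2 (h2.1 h))

end Pool.Agent.H92.CR
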